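import Pool.Agent.H10R3.SC.Stmts3

set_option autoImplicit false

/-!
Task CX15-tyE of project H10-CX.
-/

open Finset

namespace Pool.Agent.H894R3.CX

open Pool.Agent.H10R3.SC
open Pool.Agent.Helper347.Sab
open Pool.Agent.H444.FA

theorem tyE (h1 : TRead) (h2 : TPad) : TTyE := by
  intro V E _ _ _ _ G C X y x ℓ hcr k l l' hk hl hl' hkl hkl' hll' hgdt hg hgood
  obtain ⟨n, Z, p, hPC, hcard, hpat, hev⟩ :=
    h1 V E G C X 4 y x ℓ hcr 2 5 (gTree y k l l') hgdt hg {0, 1, 3, 4} hgood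
  have e0 : pat G y Z 0 = p 0 := hpat 0 0 (by simp [gTree])
  have e1 : pat G y Z k = p 1 := hpat k 1 (by simp [gTree])
  have e3 : pat G y Z l = p 3 := hpat l 3 (by simp [gTree])
  have e4 : pat G y Z l' = p 4 := hpat l' 4 (by simp [gTree])
  have c0 : (p 0).card = 1 := by rw [hcard]; simp
  have c1 : (p 1).card = 1 := by rw [hcard]; simp
  have c2 : (p 2).card = 2 := by rw [hcard]; simp
  have c3 : (p 3).card = 1 := by rw [hcard]; simp
  have c4 : (p 4).card = 1 := by rw [hcard]; simp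
  have w0 : ∀ c, Even ((if c ∈ p 0 then 1 else 0) + (if c ∈ p 1 then 1 else 0) +
      (if c ∈ p 2 then 1 else 0)) := by
    intro c
    have h := hev 0 c
    rw [Finset.card_filter, Fin.sum_univ_five] at h
    simpa [gTree] using h
  have w1 : ∀ c, Even ((if c ∈ p 2 then 1 else 0) + (if c ∈ p 3 then 1 else 0) +
      (if c ∈ p 4 then 1 else 0)) := by
    intro c
    have h := hev 1 c
    rw [Finset.card_filter, Fin.sum_univ_five] at h
    simpa [gTree] using h
  obtain ⟨α, hα⟩ := Finset.card_eq_one.1 c0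
  obtain ⟨β, hβ⟩ := Finset.card_eq_one.1 c1
  obtain ⟨γ, hγ⟩ := Finset.card_eq_one.1 c3
  obtain ⟨δ, hδ⟩ := Finset.card_eq_one.1 c4
  have m0 : ∀ c, c ∈ p 2 ↔ ((c = α ∧ c ≠ β) ∨ (c ≠ α ∧ c = β)) := by
    intro c
    have h := w0 c
    rw [hα, hβ] at h
    by_cases a1 : c = α <;> by_cases a2 : c = β <;> by_cases a3 : c ∈ p 2 <;>
      simp_all <;> revert h <;> decide
  have m1 : ∀ c, c ∈ p 2 ↔ ((c = γ ∧ c ≠ δ) ∨ (c ≠ γ ∧ c = δ)) := by
    intro c
    clear m0
    have h := w1 c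
    rw [hγ, hδ] at h
    by_cases a1 : c = γ <;> by_cases a2 : c = δ <;> by_cases a3 : c ∈ p 2 <;>
      simp_all <;> revert h <;> decide
  have hab : α ≠ β := by
    rintro rfl
    have h : p 2 = ∅ := by
      ext c
      rw [m0 c]
      simp
    rw [h] at c2
    simp at c2
  have hα2 : α ∈ p 2 := (m0 α).2 (Or.inl ⟨rfl, hab⟩)
  have hβ2 : β ∈ p 2 := (m0 β).2 (Or.inr ⟨hab.symm, rfl⟩)
  have hall : ∀ i : Fin 4, i = 0 ∨ i = k ∨ i = l ∨ i = l' := by
    intro i
    omega
  rcases (m1 α).1 hα2 with ⟨h5, h6⟩ | ⟨h5, h6⟩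
  · left
    have h7 : β = δ := by
      rcases (m1 β).1 hβ2 with ⟨h8, _⟩ | ⟨_, h9⟩
      · exact absurd (h5.trans h8.symm) hab
      · exact h9
    refine h2 V E G C X 4 y n Z hPC (PM l) {0, 1} ![α, β, β] ?_ ?_ ?_
    · intro i
      unfold PM
      split_ifs <;> simp
    · intro s hs t ht hst
      simp only [Finset.mem_insert, Finset.mem_singleton] at hs ht
      rcases hs with rfl | rfl <;> rcases ht with rfl | rfl <;> simp_all
    · intro i
      rcases hall i with rfl | rfl | rfl | rfl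
      · rw [e0, hα]; simp [PM]
      · rw [e1, hβ]; simp [PM, hk, hkl]
      · rw [e3, hγ, ← h5]; simp [PM]
      · rw [e4, hδ, ← h7]; simp [PM, hl', hll'.symm]
  · right
    have h7 : β = γ := by
      rcases (m1 β).1 hβ2 with ⟨h8, _⟩ | ⟨_, h9⟩
      · exact h8
      · exact absurd (h6.trans h9.symm) hab
    refine h2 V E G C X 4 y n Z hPC (PM l') {0, 1} ![α, β, β] ?_ ?_ ?_
    · intro i
      unfold PM
      split_ifs <;> simp
    · intro s hs t ht hst
      simp only [Finset.mem_insert, Finset.mem_singleton] at hs ht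
      rcases hs with rfl | rfl <;> rcases ht with rfl | rfl <;> simp_all
    · intro i
      rcases hall i with rfl | rfl | rfl | rfl
      · rw [e0, hα]; simp [PM]
      · rw [e1, hβ]; simp [PM, hk, hkl']
      · rw [e3, hγ, ← h7]; simp [PM, hl, hll']
      · rw [e4, hδ, ← h6]; simp [PM]

end Pool.Agent.H894R3.CX
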