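import Mathlib

namespace Pool.Agent.H894R3.Ana

open MeasureTheory Set Filter Topology

/-- the sets `C b n` -/
def C (b : ℕ → ℕ) (n : ℕ) : Set (ℕ → ℕ) := {a | ∀ i < n, a i ≤ b i}

theorem C_congr {b b' : ℕ → ℕ} {n : ℕ} (h : ∀ i < n, b i = b' i) : C b n = C b' n := by
  ext a
  constructor
  · intro ha i hi
    rw [← h i hi]; exact ha i hi
  · intro ha i hi
    rw [h i hi]; exact ha i hi

theorem exists_bound {X : Type*} [MeasurableSpace X] (μ : Measure X) (f : (ℕ → ℕ) → X)
    (t : ENNReal) (ht : t < μ (f '' univ)) :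
    ∃ b : ℕ → ℕ, ∀ n, t < μ (f '' C b n) := by
  classical
  have step : ∀ (n : ℕ) (b : ℕ → ℕ), t < μ (f '' C b n) →
      ∃ m : ℕ, t < μ (f '' C (Function.update b n m) (n + 1)) := by
    intro n b hb
    have hmono : Monotone (fun m : ℕ => f '' C (Function.update b n m) (n + 1)) := by
      intro m m' hmm
      apply image_mono
      intro a ha i hi
      have := ha i hi
      by_cases hin : i = n
      · subst hin
        simp only [Function.update_self] at this ⊢
        exact this.trans hmm
      · rw [Function.update_of_ne hin] at this ⊢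
        exact this
    have hU : (⋃ m : ℕ, f '' C (Function.update b n m) (n + 1)) = f '' C b n := by
      rw [← image_iUnion]
      congr 1
      ext a
      simp only [mem_iUnion]
      constructor
      · rintro ⟨m, hm⟩ i hi
        have := hm i (by omega)
        rwa [Function.update_of_ne (by omega)] at this
      · intro ha
        refine ⟨a n, fun i hi => ?_⟩
        by_cases hin : i = n
        · subst hin; simp
        · rw [Function.update_of_ne hin]
          exact ha i (by omega)
    rw [← hU, hmono.measure_iUnion] at hb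
    exact lt_iSup_iff.1 hb
  choose! m hm using step
  let g : ℕ → (ℕ → ℕ) := fun n => Nat.rec (fun _ => 0) (fun n b => Function.update b n (m n b)) n
  have g0 : g 0 = fun _ => 0 := rfl
  have gs : ∀ n, g (n + 1) = Function.update (g n) n (m n (g n)) := fun n => rfl
  have hg : ∀ n, t < μ (f '' C (g n) n) := by
    intro n
    induction n with
    | zero =>
      have : C (g 0) 0 = univ := by
        ext a; simp [C]
      rw [this]; exact ht
    | succ n ih =>
      rw [gs]; exact hm n (g n) ih
  have hst : ∀ n i, i < n → g n i = g (i + 1) i := by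
    intro n
    induction n with
    | zero => intro i hi; omega
    | succ n ih =>
      intro i hi
      by_cases hin : i = n
      · subst hin; rfl
      · rw [gs n, Function.update_of_ne hin]
        exact ih i (by omega)
  refine ⟨fun i => g (i + 1) i, fun n => ?_⟩
  have : C (fun i => g (i + 1) i) n = C (g n) n := C_congr (fun i hi => (hst n i hi).symm)
  rw [this]; exact hg n

theorem exists_C_subset {W : Set (ℕ → ℕ)} (hW : IsOpen W) (b : ℕ → ℕ)
    (h : (Set.pi univ fun i => Set.Iic (b i)) ⊆ W) : ∃ n, C b n ⊆ W := by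
  by_contra hcon
  push Not at hcon
  have hcon' : ∀ n, ∃ a, a ∈ C b n ∧ a ∉ W := fun n => Set.not_subset.1 (hcon n)
  choose a haC haW using hcon'
  have hK : IsCompact (Set.pi univ fun i => Set.Iic (b i)) :=
    isCompact_univ_pi (fun i => (Set.finite_Iic (b i)).isCompact)
  obtain ⟨c, hc, φ, hφ, hlim⟩ := hK.tendsto_subseq (x := fun n i => min (a n i) (b i))
    (fun n i _ => by simp)
  have hlim2 : Tendsto (fun n => a (φ n)) atTop (𝓝 c) := by
    rw [tendsto_pi_nhds] at hlim ⊢
    intro i
    refine (hlim i).congr' ?_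
    filter_upwards [eventually_gt_atTop i] with n hn
    have h1 : i < φ n := lt_of_lt_of_le hn (hφ.id_le n)
    have h2 := haC (φ n) i h1
    simp [h2]
  have : ∀ᶠ n in atTop, a (φ n) ∈ W := hlim2.eventually (hW.mem_nhds (h hc))
  obtain ⟨n, hn⟩ := this.exists
  exact haW _ hn

theorem analytic_nullMeasurable {X : Type*} [TopologicalSpace X] [T2Space X] [MeasurableSpace X]
    [BorelSpace X] (μ : Measure X) [IsFiniteMeasure μ] [μ.OuterRegular] {s : Set X}
    (hs : AnalyticSet s) : NullMeasurableSet s μ := by
  rcases (analyticSet_iff_exists_polishSpace_range.1 hs) with _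
  rw [AnalyticSet] at hs
  rcases hs with hs | ⟨f, hf, rfl⟩
  · rw [hs]; exact MeasurableSet.empty.nullMeasurableSet
  have key : ∀ t : ENNReal, t < μ (range f) → ∃ K : Set X, IsCompact K ∧ K ⊆ range f ∧ t ≤ μ K := by
    intro t ht
    rw [← image_univ] at ht
    obtain ⟨b, hb⟩ := exists_bound μ f t ht
    refine ⟨f '' (Set.pi univ fun i => Set.Iic (b i)),
      (isCompact_univ_pi (fun i => (Set.finite_Iic (b i)).isCompact)).image hf,
      image_subset_range _ _, ?_⟩
    by_contra hlt
    push Not at hlt
    obtain ⟨U, hKU, hU, hUt⟩ := Set.exists_isOpen_lt_of_lt _ _ hlt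
    obtain ⟨n, hn⟩ := exists_C_subset (hU.preimage hf) b (image_subset_iff.1 hKU)
    have := measure_mono (μ := μ) (image_subset_iff.2 hn)
    exact absurd ((hb n).trans_le this) (not_lt.2 hUt.le)
  by_cases h0 : μ (range f) = 0
  · exact NullMeasurableSet.of_null h0
  obtain ⟨u, hu1, hu2, hu3⟩ := exists_seq_strictMono_tendsto' (pos_iff_ne_zero.2 h0)
  choose K hK1 hK2 hK3 using fun n => key (u n) (hu2 n).2
  have hB : MeasurableSet (⋃ n, K n) := MeasurableSet.iUnion fun n => (hK1 n).measurableSet
  have hsub : (⋃ n, K n) ⊆ range f := iUnion_subset hK2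
  have hle : μ (range f) ≤ μ (⋃ n, K n) := by
    refine le_of_tendsto' hu3 fun n => (hK3 n).trans (measure_mono (subset_iUnion K n))
  exact (hB.nullMeasurableSet).congr
    (ae_eq_of_subset_of_measure_ge hsub hle hB.nullMeasurableSet (measure_ne_top μ _))


theorem hull_eq {V : Type*} [AddCommGroup V] [Module ℝ V] {n : ℕ} (x : Fin n → V) :
    convexHull ℝ (range x) = (fun w : Fin n → ℝ => ∑ i, w i • x i) '' stdSimplex ℝ (Fin n) := by
  have h := LinearMap.image_convexHull (Fintype.linearCombination ℝ x)
    (range fun i j : Fin n => if i = j then (1 : ℝ) else 0)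
  rw [convexHull_basis_eq_stdSimplex, ← range_comp] at h
  have h2 : (⇑(Fintype.linearCombination ℝ x) ∘ fun i j : Fin n => if i = j then (1 : ℝ) else 0) = x := by
    funext i
    simp [Fintype.linearCombination_apply]
  rw [h2] at h
  rw [← h]
  rfl

/-- the set of tuples in `S` whose convex hull is in `S` -/
def ConvSet {V : Type*} [AddCommGroup V] [Module ℝ V] (n : ℕ) (S : Set V) : Set (Fin n → V) :=
  {x | (∀ i, x i ∈ S) ∧ convexHull ℝ (range x) ⊆ S}

theorem exists_measurable {V : Type*} [NormedAddCommGroup V] [NormedSpace ℝ V]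
    [FiniteDimensional ℝ V] [MeasureSpace V] [BorelSpace V]
    [(volume : Measure V).IsAddHaarMeasure] (n : ℕ) (S : Set V)
    (hS : MeasurableSet S) (hfin : volume S < ⊤) :
    ∃ E' ⊆ ConvSet n S, MeasurableSet E' ∧ volume E' = volume (ConvSet n S) := by
  classical
  have hpol : PolishSpace V := by
    have : CompleteSpace V := FiniteDimensional.complete ℝ V
    have : SecondCountableTopology V := by
      have : ProperSpace V := FiniteDimensional.proper ℝ V
      infer_instance
    infer_instance
  let SS : Set (Fin n → V) := Set.pi univ fun _ => S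
  have hSS : MeasurableSet SS := MeasurableSet.univ_pi fun _ => hS
  have hSSfin : volume SS < ⊤ := by
    rw [volume_pi_pi]
    exact ENNReal.prod_lt_top (fun _ _ => hfin)
  let T : Set ((Fin n → V) × (Fin n → ℝ)) :=
    {p | p.1 ∈ SS ∧ p.2 ∈ stdSimplex ℝ (Fin n) ∧ ∑ i, p.2 i • p.1 i ∉ S}
  have hT : MeasurableSet T := by
    have h1 : MeasurableSet {p : (Fin n → V) × (Fin n → ℝ) | p.1 ∈ SS} := measurable_fst hSS
    have h2 : MeasurableSet {p : (Fin n → V) × (Fin n → ℝ) | p.2 ∈ stdSimplex ℝ (Fin n)} :=
      measurable_snd (isClosed_stdSimplex (Fin n) (𝕜 := ℝ)).measurableSet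
    have h3 : MeasurableSet {p : (Fin n → V) × (Fin n → ℝ) | ∑ i, p.2 i • p.1 i ∉ S} := by
      have hc : Continuous fun p : (Fin n → V) × (Fin n → ℝ) => ∑ i, p.2 i • p.1 i := by
        fun_prop
      exact hc.measurable hS.compl
    exact h1.inter (h2.inter h3)
  let A : Set (Fin n → V) := Prod.fst '' T
  have hA : AnalyticSet A := hT.analyticSet_image measurable_fst
  have hEA : ConvSet n S = SS \ A := by
    ext x
    constructor
    · rintro ⟨h1, h2⟩
      refine ⟨fun i _ => h1 i, ?_⟩
      rintro ⟨p, ⟨hp1, hp2, hp3⟩, rfl⟩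
      apply hp3
      apply h2
      rw [hull_eq]
      exact ⟨p.2, hp2, rfl⟩
    · rintro ⟨h1, h2⟩
      refine ⟨fun i => h1 i (mem_univ i), ?_⟩
      rw [hull_eq]
      rintro _ ⟨w, hw, rfl⟩
      by_contra hcon
      exact h2 ⟨(x, w), ⟨h1, hw, hcon⟩, rfl⟩
  let ν : Measure (Fin n → V) := volume.restrict SS
  have : IsFiniteMeasure ν := ⟨by simpa [ν] using hSSfin⟩
  have hAn : NullMeasurableSet A ν := analytic_nullMeasurable ν hA
  obtain ⟨A', hAA', hA', hae⟩ := hAn.exists_measurable_superset_ae_eq
  refine ⟨SS \ A', ?_, hSS.diff hA', ?_⟩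
  · rw [hEA]
    exact sdiff_subset_sdiff_right hAA'
  · apply le_antisymm
    · apply measure_mono
      rw [hEA]
      exact sdiff_subset_sdiff_right hAA'
    · have h0 : volume (SS ∩ (A' \ A)) = 0 := by
        have h1 : ν (A' \ A) = 0 := by
          exact (ae_le_set.1 hae.le)
        rw [inter_comm]
        have h2 : ν (A' \ A) ≥ volume ((A' \ A) ∩ SS) := Measure.le_restrict_apply _ _
        exact le_antisymm (h2.trans h1.le) (by simp)
      calc volume (ConvSet n S) ≤ volume ((SS \ A') ∪ (SS ∩ (A' \ A))) := by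
            apply measure_mono
            rw [hEA]
            intro x hx
            by_cases hxA : x ∈ A'
            · exact Or.inr ⟨hx.1, hxA, hx.2⟩
            · exact Or.inl ⟨hx.1, hxA⟩
        _ ≤ volume (SS \ A') + volume (SS ∩ (A' \ A)) := measure_union_le _ _
        _ = volume (SS \ A') := by rw [h0, add_zero]

end Pool.Agent.H894R3.Ana
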