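import Mathlib

namespace Pool.Agent.H894R3.Cone

open MeasureTheory Set
open scoped ENNReal Pointwise

/-- The cone lemma. -/
theorem cone (d : ℕ) (S : Set (Fin d → ℝ)) (A θ : ℝ) (hθ : 0 < θ)
    (hSA : volume S ≤ ENNReal.ofReal A) (M : Set (Fin d → ℝ)) (hM : MeasurableSet M)
    (hMc : M ⊆ Icc 0 1) (hMθ : ENNReal.ofReal θ ≤ volume M) (b W : Fin d → ℝ)
    (hconv : ∀ ν ∈ M, ∀ s : ℝ, 0 ≤ s → s ≤ 1 → (1 - s) • (b + ν) + s • W ∈ S) (i : Fin d) :
    |W i - b i| ≤ 8 * 2 ^ d * A / θ := by
  by_contra hcon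
  push Not at hcon
  have hA : 0 ≤ A := by
    by_contra hneg
    push Not at hneg
    rw [ENNReal.ofReal_of_nonpos hneg.le] at hSA
    have hS0 : volume S = 0 := le_antisymm hSA (by simp)
    obtain ⟨ν, hν⟩ : M.Nonempty := by
      rw [nonempty_iff_ne_empty]
      rintro rfl
      simp at hMθ
      linarith
    have hsub : (fun x => x + b) '' M ⊆ S := by
      rintro _ ⟨ν, hν, rfl⟩
      have := hconv ν hν 0 le_rfl zero_le_one
      simpa [add_comm] using this
    have h1 : volume ((fun x => x + b) '' M) = volume M := by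
      rw [image_add_right]
      exact measure_preimage_add_right _ _ _
    have h2 := measure_mono (μ := volume) hsub
    rw [h1, hS0] at h2
    have h3 := hMθ.trans h2
    simp at h3
    linarith
  set a : ℝ := |W i - b i| with ha
  have hapos : 0 < a := lt_of_le_of_lt (by positivity) hcon
  set N : ℕ := ⌊a / 8⌋₊ with hN
  have hNa : a / 8 < N + 1 := Nat.lt_floor_add_one _
  have hNle : (N : ℝ) ≤ a / 8 := Nat.floor_le (by positivity)
  let s : ℕ → ℝ := fun l => 4 * l / a
  have hs0 : ∀ l, 0 ≤ s l := fun l => by simp only [s]; positivity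
  have hs1 : ∀ l ∈ Finset.range (N + 1), s l ≤ 1 / 2 := by
    intro l hl
    have hl' : (l : ℝ) ≤ N := by
      have := Finset.mem_range.1 hl
      exact_mod_cast (by omega : l ≤ N)
    simp only [s]
    rw [div_le_iff₀ hapos]
    linarith
  let Mb : Set (Fin d → ℝ) := (fun x => x + b) '' M
  have hMbm : MeasurableSet Mb := by
    simp only [Mb]
    rw [image_add_right]
    exact hM.preimage (measurable_add_const _)
  have hMbv : volume Mb = volume M := by
    simp only [Mb]
    rw [image_add_right]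
    exact measure_preimage_add_right _ _ _
  let P : ℕ → Set (Fin d → ℝ) := fun l => AffineMap.homothety W (1 - s l) '' Mb
  have hPS : ∀ l ∈ Finset.range (N + 1), P l ⊆ S := by
    intro l hl
    rintro _ ⟨_, ⟨ν, hν, rfl⟩, rfl⟩
    have h1 := hconv ν hν (s l) (hs0 l) ((hs1 l hl).trans (by norm_num))
    convert h1 using 1
    rw [AffineMap.homothety_apply]
    simp only [vsub_eq_sub, vadd_eq_add]
    ext j
    simp only [Pi.add_apply, Pi.smul_apply, Pi.sub_apply, smul_eq_mul]
    ring
  have hPv : ∀ l ∈ Finset.range (N + 1), ENNReal.ofReal (θ / 2 ^ d) ≤ volume (P l) := by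
    intro l hl
    simp only [P]
    rw [Measure.addHaar_image_homothety, hMbv]
    have h1 : ENNReal.ofReal (θ / 2 ^ d) = ENNReal.ofReal ((1 / 2) ^ d) * ENNReal.ofReal θ := by
      rw [← ENNReal.ofReal_mul (by positivity)]
      congr 1
      rw [one_div, inv_pow]; ring
    rw [h1]
    have h2 : (1 : ℝ) / 2 ≤ 1 - s l := by linarith [hs1 l hl]
    refine mul_le_mul' (ENNReal.ofReal_le_ofReal ?_) hMθ
    rw [abs_pow, Module.finrank_fin_fun]
    gcongr
    exact h2.trans (le_abs_self _)
  have hPm : ∀ l ∈ Finset.range (N + 1), MeasurableSet (P l) := by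
    intro l hl
    have h2 : (1 : ℝ) / 2 ≤ 1 - s l := by linarith [hs1 l hl]
    have h3 : (1 - s l) ≠ 0 := by linarith
    have : P l = (fun x => x - (s l) • W) ⁻¹' ((1 - s l) • Mb) := by
      ext x
      simp only [P, mem_image, mem_preimage]
      constructor
      · rintro ⟨y, hy, rfl⟩
        refine ⟨y, hy, ?_⟩
        rw [AffineMap.homothety_apply]
        ext j
        simp only [vsub_eq_sub, vadd_eq_add, Pi.add_apply, Pi.smul_apply, Pi.sub_apply, smul_eq_mul]
        ring
      · rintro ⟨y, hy, hyx⟩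
        refine ⟨y, hy, ?_⟩
        rw [AffineMap.homothety_apply]
        ext j
        have := congrFun hyx j
        simp only [vsub_eq_sub, vadd_eq_add, Pi.add_apply, Pi.smul_apply, Pi.sub_apply,
          smul_eq_mul] at this ⊢
        linarith
    rw [this]
    exact (hMbm.const_smul₀ _).preimage (measurable_id.sub_const _)
  have hPc : ∀ l ∈ Finset.range (N + 1), ∀ x ∈ P l, |x i - b i - s l * (W i - b i)| ≤ 1 := by
    intro l hl
    rintro _ ⟨_, ⟨ν, hν, rfl⟩, rfl⟩
    rw [AffineMap.homothety_apply]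
    simp only [vsub_eq_sub, vadd_eq_add, Pi.add_apply, Pi.smul_apply, Pi.sub_apply, smul_eq_mul]
    have h1 := (hMc hν).1 i
    have h2 := (hMc hν).2 i
    simp only [Pi.zero_apply, Pi.one_apply] at h1 h2
    have h3 := hs0 l
    have h4 : s l ≤ 1 / 2 := hs1 l hl
    rw [abs_le]
    constructor <;> nlinarith
  have hdisj : ∀ l ∈ Finset.range (N + 1), ∀ l' ∈ Finset.range (N + 1), l ≠ l' →
      Disjoint (P l) (P l') := by
    intro l hl l' hl' hne
    rw [Set.disjoint_left]
    intro x hx hx'
    have h1 := hPc l hl x hx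
    have h2 := hPc l' hl' x hx'
    have h3 : |(s l - s l') * (W i - b i)| ≤ 2 := by
      have : (s l - s l') * (W i - b i) = (x i - b i - s l' * (W i - b i)) -
        (x i - b i - s l * (W i - b i)) := by ring
      rw [this]
      refine (abs_sub _ _).trans ?_
      linarith
    rw [abs_mul, ← ha] at h3
    have h4 : |s l - s l'| * a = 4 * |(l : ℝ) - l'| := by
      have : s l - s l' = 4 / a * ((l : ℝ) - l') := by simp only [s]; ring
      rw [this, abs_mul, abs_of_pos (by positivity : (0 : ℝ) < 4 / a)]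
      field_simp
    rw [h4] at h3
    have h5 : (1 : ℝ) ≤ |(l : ℝ) - l'| := by
      have : (1 : ℤ) ≤ |(l : ℤ) - l'| := by
        apply Int.one_le_abs
        omega
      exact_mod_cast this
    linarith
  have hsum : ∑ l ∈ Finset.range (N + 1), volume (P l) ≤ volume S := by
    rw [← measure_biUnion_finset]
    · exact measure_mono (iUnion₂_subset hPS)
    · intro l hl l' hl' hne
      exact hdisj l hl l' hl' hne
    · exact hPm
  have hlow : ENNReal.ofReal ((N + 1) * (θ / 2 ^ d)) ≤ ∑ l ∈ Finset.range (N + 1), volume (P l) := by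
    calc ENNReal.ofReal ((N + 1) * (θ / 2 ^ d)) = ∑ l ∈ Finset.range (N + 1), ENNReal.ofReal (θ / 2 ^ d) := by
          rw [Finset.sum_const, Finset.card_range, nsmul_eq_mul, ENNReal.ofReal_mul (by positivity)]
          congr 1
          rw [← ENNReal.ofReal_natCast]; push_cast; rfl
      _ ≤ _ := Finset.sum_le_sum hPv
  have hfin := (hlow.trans hsum).trans hSA
  rw [ENNReal.ofReal_le_ofReal_iff hA] at hfin
  have h6 : a / 8 * (θ / 2 ^ d) < (N + 1) * (θ / 2 ^ d) := by
    apply mul_lt_mul_of_pos_right hNa (by positivity)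
  have h7 : a / 8 * (θ / 2 ^ d) < A := h6.trans_le hfin
  rw [div_lt_iff₀ hθ] at hcon
  have h8 : a / 8 * (θ / 2 ^ d) * (8 * 2 ^ d) = a * θ := by
    field_simp
  have h9 : (0 : ℝ) < 8 * 2 ^ d := by positivity
  nlinarith

end Pool.Agent.H894R3.Cone
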