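import Mathlib
import Pool.Agent.H894R3.Cone

namespace Pool.Agent.H894R3.Box

open MeasureTheory Set
open scoped ENNReal

theorem arith (k : ℕ) (κ s e : ℝ) (hκ : 0 < κ) (hs : 0 ≤ s) (h1 : κ * s < e) (h2 : e ≤ s ^ (k + 2)) :
    κ * min κ 1 ≤ e := by
  have hs0 : 0 < s := by
    rcases hs.eq_or_lt with h | h
    · rw [← h] at h1 h2
      simp at h2
      simp at h1
      linarith
    · exact h
  have h3 : κ < s ^ (k + 1) := by
    have : κ * s < s ^ (k + 1) * s := by rw [← pow_succ]; linarith
    exact lt_of_mul_lt_mul_right this hs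
  have h4 : min κ 1 ≤ s := by
    by_contra hcon
    push Not at hcon
    have h5 : s ≤ 1 := (hcon.trans_le (min_le_right _ _)).le
    have h6 : s ^ (k + 1) ≤ s := by
      calc s ^ (k + 1) ≤ s ^ 1 := pow_le_pow_of_le_one hs h5 (by omega)
        _ = s := pow_one s
    have h7 := hcon.trans_le (min_le_left _ _)
    linarith
  nlinarith

theorem vol_cube (d : ℕ) : volume (Icc (0 : Fin d → ℝ) 1) = 1 := by
  rw [Real.volume_Icc_pi]; simp

theorem local_box (d k : ℕ) (c A : ℝ) (hc : 0 < c) (hA : 0 < A) :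
    ∃ K κ : ℝ, 0 < K ∧ 0 < κ ∧ ∀ S : Set (Fin d → ℝ), MeasurableSet S →
      volume S ≤ ENNReal.ofReal A → ∀ E : Set (Fin (k + 2) → (Fin d → ℝ)), MeasurableSet E →
      (∀ x ∈ E, convexHull ℝ (range x) ⊆ S) →
      ENNReal.ofReal c ≤ ∫⁻ μ in Icc (0 : Fin d → ℝ) 1,
        volume {x : Fin (k + 2) → (Fin d → ℝ) | (∀ i, x i ∈ S) ∧ x + Pi.single 1 μ ∈ E} →
      ∃ a : Fin d → ℝ, ENNReal.ofReal κ ≤
        volume (E ∩ {x | ∀ i, x i ∈ Icc (a - fun _ => K) (a + fun _ => K)}) := by
  set θ : ℝ := c / (2 * A ^ (k + 2)) with hθ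
  have hθ0 : 0 < θ := by positivity
  set K0 : ℝ := 8 * 2 ^ d * A / θ with hK0
  have hK00 : 0 < K0 := by positivity
  set K : ℝ := K0 + 2 with hK
  have hKpos : 0 < K := by positivity
  set κ1 : ℝ := c / (4 * ((2 * K) ^ d * A)) with hκ1
  have hκ1pos : 0 < κ1 := by positivity
  refine ⟨K, κ1 * min κ1 1, hKpos, by positivity, ?_⟩
  intro S hS hSA E hE hhull hint
  let SS : Set (Fin (k + 2) → (Fin d → ℝ)) := Set.pi univ fun _ => S
  have hSS : MeasurableSet SS := MeasurableSet.univ_pi fun _ => hS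
  have hSSv : volume SS ≤ ENNReal.ofReal (A ^ (k + 2)) := by
    rw [volume_pi_pi, Finset.prod_const, Finset.card_univ, Fintype.card_fin,
      ENNReal.ofReal_pow hA.le]
    gcongr
  have hSi : ∀ x ∈ E, ∀ i, x i ∈ S := fun x hx i =>
    hhull x hx (subset_convexHull ℝ _ (mem_range_self i))
  -- the set of pairs
  have hadd : Measurable fun p : (Fin d → ℝ) × (Fin (k + 2) → (Fin d → ℝ)) =>
      p.2 + Pi.single 1 p.1 := by
    refine measurable_snd.add ?_
    refine measurable_pi_lambda _ fun i => ?_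
    by_cases hi : i = 1
    · subst hi; simp; exact measurable_fst
    · simpa [hi] using measurable_const
  let D : Set ((Fin d → ℝ) × (Fin (k + 2) → (Fin d → ℝ))) :=
    {p | p.1 ∈ Icc (0 : Fin d → ℝ) 1 ∧ p.2 ∈ SS ∧ p.2 + Pi.single 1 p.1 ∈ E}
  have hD : MeasurableSet D :=
    (measurable_fst measurableSet_Icc).inter ((measurable_snd hSS).inter (hadd hE))
  have hDv : ENNReal.ofReal c ≤ volume D := by
    rw [show (volume : Measure ((Fin d → ℝ) × (Fin (k + 2) → (Fin d → ℝ)))) =
      (volume : Measure (Fin d → ℝ)).prod volume from rfl, Measure.prod_apply hD]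
    refine hint.trans ?_
    rw [← lintegral_indicator measurableSet_Icc]
    apply lintegral_mono
    intro μ
    by_cases hμ : μ ∈ Icc (0 : Fin d → ℝ) 1
    · rw [indicator_of_mem hμ]
      apply measure_mono
      rintro x ⟨h1, h2⟩
      exact ⟨hμ, fun i _ => h1 i, h2⟩
    · rw [indicator_of_notMem hμ]; simp
  let ψ : (Fin (k + 2) → (Fin d → ℝ)) → ENNReal := fun x =>
    volume {μ : Fin d → ℝ | μ ∈ Icc (0 : Fin d → ℝ) 1 ∧ x + Pi.single 1 μ ∈ E}
  have hM : ∀ x : Fin (k + 2) → (Fin d → ℝ),
      MeasurableSet {μ : Fin d → ℝ | μ ∈ Icc (0 : Fin d → ℝ) 1 ∧ x + Pi.single 1 μ ∈ E} := by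
    intro x
    exact measurableSet_Icc.inter ((hadd.comp (measurable_id.prodMk measurable_const)) hE)
  have hψm : Measurable ψ := by
    have : MeasurableSet {p : (Fin (k + 2) → (Fin d → ℝ)) × (Fin d → ℝ) |
        p.2 ∈ Icc (0 : Fin d → ℝ) 1 ∧ p.1 + Pi.single 1 p.2 ∈ E} :=
      (measurable_snd measurableSet_Icc).inter
        ((hadd.comp (measurable_snd.prodMk measurable_fst)) hE)
    exact measurable_measure_prodMk_left this
  let H : Set (Fin (k + 2) → (Fin d → ℝ)) := {x | x ∈ SS ∧ ENNReal.ofReal θ ≤ ψ x}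
  have hH : MeasurableSet H := hSS.inter (hψm measurableSet_Ici)
  let D1 : Set ((Fin d → ℝ) × (Fin (k + 2) → (Fin d → ℝ))) := {p | p ∈ D ∧ p.2 ∈ H}
  let D2 : Set ((Fin d → ℝ) × (Fin (k + 2) → (Fin d → ℝ))) := {p | p ∈ D ∧ p.2 ∉ H}
  have hD1 : MeasurableSet D1 := hD.inter (measurable_snd hH)
  have hD2 : MeasurableSet D2 := hD.inter (measurable_snd hH.compl)
  have hD2v : volume D2 ≤ ENNReal.ofReal (c / 2) := by
    rw [show (volume : Measure ((Fin d → ℝ) × (Fin (k + 2) → (Fin d → ℝ)))) =
      (volume : Measure (Fin d → ℝ)).prod volume from rfl, Measure.prod_apply_symm hD2]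
    calc ∫⁻ x, volume ((fun μ => (μ, x)) ⁻¹' D2) ≤ ∫⁻ x, SS.indicator (fun _ => ENNReal.ofReal θ) x := by
          apply lintegral_mono
          intro x
          by_cases hx : x ∈ SS
          · rw [indicator_of_mem hx]
            by_cases hxH : x ∈ H
            · have : (fun μ => (μ, x)) ⁻¹' D2 = ∅ := by
                rw [eq_empty_iff_forall_notMem]
                rintro μ ⟨_, h2⟩
                exact h2 hxH
              show volume ((fun μ => (μ, x)) ⁻¹' D2) ≤ _
              rw [this]; simp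
            · have h1 : ψ x < ENNReal.ofReal θ := by
                by_contra hcon
                push Not at hcon
                exact hxH ⟨hx, hcon⟩
              refine (measure_mono ?_).trans h1.le
              rintro μ ⟨⟨h2, h3, h4⟩, _⟩
              exact ⟨h2, h4⟩
          · rw [indicator_of_notMem hx]
            have : (fun μ => (μ, x)) ⁻¹' D2 = ∅ := by
              rw [eq_empty_iff_forall_notMem]
              rintro μ ⟨⟨_, h2, _⟩, _⟩
              exact hx h2
            show volume ((fun μ => (μ, x)) ⁻¹' D2) ≤ _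
            rw [this]; simp
      _ = ENNReal.ofReal θ * volume SS := by
          rw [lintegral_indicator hSS, setLIntegral_const]
      _ ≤ ENNReal.ofReal θ * ENNReal.ofReal (A ^ (k + 2)) := by gcongr
      _ = ENNReal.ofReal (c / 2) := by
          rw [← ENNReal.ofReal_mul hθ0.le]
          congr 1
          rw [hθ]; field_simp
  have hD1v : ENNReal.ofReal (c / 2) ≤ volume D1 := by
    have h1 : D = D1 ∪ D2 := by
      ext p
      by_cases hp : p.2 ∈ H
      · simp [D1, D2, hp]
      · simp [D1, D2, hp]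
    have h2 : ENNReal.ofReal c ≤ volume D1 + ENNReal.ofReal (c / 2) := by
      calc ENNReal.ofReal c ≤ volume D := hDv
        _ ≤ volume D1 + volume D2 := by rw [h1]; exact measure_union_le _ _
        _ ≤ _ := by gcongr
    have h3 : ENNReal.ofReal c = ENNReal.ofReal (c / 2) + ENNReal.ofReal (c / 2) := by
      rw [← ENNReal.ofReal_add (by positivity) (by positivity)]; congr 1; ring
    rw [h3] at h2
    exact (ENNReal.add_le_add_iff_right ENNReal.ofReal_ne_top).1 h2
  -- the localised set
  let E' : Set (Fin (k + 2) → (Fin d → ℝ)) := {y | y ∈ E ∧ ∀ i, ∀ l, |y i l - y 1 l| ≤ K0 + 1}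
  have hE' : MeasurableSet E' := by
    have h1 : MeasurableSet {y : Fin (k + 2) → (Fin d → ℝ) | ∀ i, ∀ l, |y i l - y 1 l| ≤ K0 + 1} := by
      have : {y : Fin (k + 2) → (Fin d → ℝ) | ∀ i, ∀ l, |y i l - y 1 l| ≤ K0 + 1} =
          ⋂ i, ⋂ l, {y | |y i l - y 1 l| ≤ K0 + 1} := by
        ext y; simp
      rw [this]
      refine MeasurableSet.iInter fun i => MeasurableSet.iInter fun l => ?_
      exact (isClosed_le (by fun_prop) continuous_const).measurableSet
    exact hE.inter h1
  have hD1E' : D1 ⊆ {p | p.1 ∈ Icc (0 : Fin d → ℝ) 1 ∧ p.2 + Pi.single 1 p.1 ∈ E'} := by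
    rintro ⟨μ, x⟩ ⟨⟨h1, h2, h3⟩, h4⟩
    refine ⟨h1, h3, fun i l => ?_⟩
    simp only [Pi.add_apply]
    by_cases hi : i = 1
    · subst hi
      simp only [sub_self, abs_zero]
      positivity
    · rw [Pi.single_eq_of_ne hi, Pi.single_eq_same]
      simp only [Pi.zero_apply, add_zero]
      have hcone := Cone.cone d S A θ hθ0 hSA
        {μ : Fin d → ℝ | μ ∈ Icc (0 : Fin d → ℝ) 1 ∧ x + Pi.single 1 μ ∈ E} (hM x)
        (fun μ hμ => hμ.1) h4.2 (x 1) (x i) (by
          rintro ν ⟨hν1, hν2⟩ s hs0 hs1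
          apply hhull _ hν2
          have hc := convex_convexHull ℝ (range (x + Pi.single 1 ν))
          have e1 : x 1 + ν ∈ convexHull ℝ (range (x + Pi.single 1 ν)) := by
            apply subset_convexHull
            exact ⟨1, by simp⟩
          have e2 : x i ∈ convexHull ℝ (range (x + Pi.single 1 ν)) := by
            apply subset_convexHull
            exact ⟨i, by simp [hi]⟩
          exact hc e1 e2 (by linarith) hs0 (by ring)) l
      rw [← hK0] at hcone
      have hμ1 := h1.1 l
      have hμ2 := h1.2 l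
      simp only [Pi.zero_apply, Pi.one_apply] at hμ1 hμ2
      have : x i l - (x 1 l + μ l) = (x i l - x 1 l) - μ l := by ring
      rw [this]
      refine (abs_sub _ _).trans ?_
      rw [abs_of_nonneg hμ1]
      linarith
  have hE'v : ENNReal.ofReal (c / 2) ≤ volume E' := by
    have hm : MeasurableSet {p : (Fin d → ℝ) × (Fin (k + 2) → (Fin d → ℝ)) |
        p.1 ∈ Icc (0 : Fin d → ℝ) 1 ∧ p.2 + Pi.single 1 p.1 ∈ E'} :=
      (measurable_fst measurableSet_Icc).inter (hadd hE')
    refine (hD1v.trans (measure_mono hD1E')).trans ?_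
    rw [show (volume : Measure ((Fin d → ℝ) × (Fin (k + 2) → (Fin d → ℝ)))) =
      (volume : Measure (Fin d → ℝ)).prod volume from rfl, Measure.prod_apply hm]
    calc _ ≤ ∫⁻ μ, (Icc (0 : Fin d → ℝ) 1).indicator (fun _ => volume E') μ := by
          apply lintegral_mono
          intro μ
          by_cases hμ : μ ∈ Icc (0 : Fin d → ℝ) 1
          · rw [indicator_of_mem hμ]
            have h1 : volume ((fun x : Fin (k + 2) → (Fin d → ℝ) => x + Pi.single 1 μ) ⁻¹' E') =
                volume E' :=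
              measure_preimage_add_right volume (Pi.single 1 μ : Fin (k + 2) → (Fin d → ℝ)) E'
            rw [← h1]
            apply measure_mono
            rintro x ⟨_, h2⟩
            exact h2
          · rw [indicator_of_notMem hμ]
            have : Prod.mk μ ⁻¹' {p : (Fin d → ℝ) × (Fin (k + 2) → (Fin d → ℝ)) |
                p.1 ∈ Icc (0 : Fin d → ℝ) 1 ∧ p.2 + Pi.single 1 p.1 ∈ E'} = ∅ := by
              rw [eq_empty_iff_forall_notMem]
              rintro x ⟨h2, _⟩
              exact hμ h2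
            show volume (Prod.mk μ ⁻¹' {p : (Fin d → ℝ) × (Fin (k + 2) → (Fin d → ℝ)) |
                p.1 ∈ Icc (0 : Fin d → ℝ) 1 ∧ p.2 + Pi.single 1 p.1 ∈ E'}) ≤ 0
            rw [this]; simp
      _ = volume E' := by
          rw [lintegral_indicator measurableSet_Icc, setLIntegral_const, vol_cube, mul_one]
  -- box selection
  by_contra hcon
  push Not at hcon
  let e : (Fin d → ℝ) → ENNReal := fun a =>
    volume (E ∩ {x | ∀ i, x i ∈ Icc (a - fun _ => K) (a + fun _ => K)})
  let s : (Fin d → ℝ) → ENNReal := fun a => volume (S ∩ Icc (a - fun _ => K) (a + fun _ => K))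
  have hes : ∀ a, e a ≤ ENNReal.ofReal κ1 * s a := by
    intro a
    by_contra hlt
    push Not at hlt
    have hsfin : s a ≠ ⊤ :=
      ((measure_mono inter_subset_left).trans_lt (hSA.trans_lt ENNReal.ofReal_lt_top)).ne
    have hle : e a ≤ (s a) ^ (k + 2) := by
      have : E ∩ {x | ∀ i, x i ∈ Icc (a - fun _ => K) (a + fun _ => K)} ⊆
          Set.pi univ fun _ => (S ∩ Icc (a - fun _ => K) (a + fun _ => K)) := by
        rintro x ⟨h1, h2⟩ i _
        exact ⟨hSi x h1 i, h2 i⟩
      refine (measure_mono this).trans ?_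
      rw [volume_pi_pi, Finset.prod_const, Finset.card_univ, Fintype.card_fin]
    have hefin : e a ≠ ⊤ := (hle.trans_lt (ENNReal.pow_lt_top hsfin.lt_top)).ne
    have h1 : κ1 * (s a).toReal < (e a).toReal := by
      have := (ENNReal.toReal_lt_toReal (ENNReal.mul_ne_top ENNReal.ofReal_ne_top hsfin) hefin).2 hlt
      rwa [ENNReal.toReal_mul, ENNReal.toReal_ofReal hκ1pos.le] at this
    have h2 : (e a).toReal ≤ (s a).toReal ^ (k + 2) := by
      have := (ENNReal.toReal_le_toReal hefin (ENNReal.pow_ne_top hsfin)).2 hle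
      rwa [ENNReal.toReal_pow] at this
    have h3 := arith k κ1 _ _ hκ1pos ENNReal.toReal_nonneg h1 h2
    have h4 := hcon a
    have h5 : (e a).toReal < κ1 * min κ1 1 := by
      have := (ENNReal.toReal_lt_toReal hefin ENNReal.ofReal_ne_top).2 h4
      rwa [ENNReal.toReal_ofReal (by positivity)] at this
    linarith
  have hIe : ENNReal.ofReal (c / 2) ≤ ∫⁻ a, e a := by
    have hm : MeasurableSet {p : (Fin d → ℝ) × (Fin (k + 2) → (Fin d → ℝ)) |
        p.2 ∈ E' ∧ p.2 1 ∈ Icc p.1 (p.1 + 1)} := by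
      have : {p : (Fin d → ℝ) × (Fin (k + 2) → (Fin d → ℝ)) | p.2 ∈ E' ∧ p.2 1 ∈ Icc p.1 (p.1 + 1)} =
          (Prod.snd ⁻¹' E') ∩ ({p | p.1 ≤ p.2 1} ∩ {p | p.2 1 ≤ p.1 + 1}) := by
        ext p; simp [mem_Icc]
      rw [this]
      exact (measurable_snd hE').inter ((isClosed_le (by fun_prop) (by fun_prop)).inter
        (isClosed_le (by fun_prop) (by fun_prop))).measurableSet
    calc ENNReal.ofReal (c / 2) ≤ volume E' := hE'v
      _ = ∫⁻ y, E'.indicator (fun _ => 1) y := by rw [lintegral_indicator hE', setLIntegral_const, one_mul]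
      _ ≤ ∫⁻ y, volume ((fun a => (a, y)) ⁻¹' {p : (Fin d → ℝ) × (Fin (k + 2) → (Fin d → ℝ)) |
        p.2 ∈ E' ∧ p.2 1 ∈ Icc p.1 (p.1 + 1)}) := by
          apply lintegral_mono
          intro y
          by_cases hy : y ∈ E'
          · rw [indicator_of_mem hy]
            have h1 : Icc (y 1 - 1) (y 1) ⊆ ((fun a => (a, y)) ⁻¹'
                {p : (Fin d → ℝ) × (Fin (k + 2) → (Fin d → ℝ)) |
                p.2 ∈ E' ∧ p.2 1 ∈ Icc p.1 (p.1 + 1)}) := by
              rintro a ⟨ha1, ha2⟩
              exact ⟨hy, ha2, by simpa [sub_le_iff_le_add] using ha1⟩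
            refine le_trans ?_ (measure_mono h1)
            rw [Real.volume_Icc_pi]
            simp
          · rw [indicator_of_notMem hy]; simp
      _ = ∫⁻ a, volume (Prod.mk a ⁻¹' {p : (Fin d → ℝ) × (Fin (k + 2) → (Fin d → ℝ)) |
        p.2 ∈ E' ∧ p.2 1 ∈ Icc p.1 (p.1 + 1)}) := by
          rw [← Measure.prod_apply_symm hm, Measure.prod_apply hm]
      _ ≤ ∫⁻ a, e a := by
          apply lintegral_mono
          intro a
          apply measure_mono
          rintro y ⟨⟨h1, h2⟩, h3, h4⟩
          refine ⟨h1, fun i => ⟨fun l => ?_, fun l => ?_⟩⟩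
          · have e1 := abs_le.1 (h2 i l)
            have e2 := h3 l
            simp only [Pi.sub_apply]
            simp only at e2
            linarith [e1.1]
          · have e1 := abs_le.1 (h2 i l)
            have e2 := h4 l
            simp only [Pi.add_apply, Pi.one_apply] at e2 ⊢
            linarith [e1.2]
  have hIs : ∫⁻ a, s a ≤ ENNReal.ofReal ((2 * K) ^ d * A) := by
    have hm : MeasurableSet {p : (Fin d → ℝ) × (Fin d → ℝ) |
        p.2 ∈ S ∧ p.2 ∈ Icc (p.1 - fun _ => K) (p.1 + fun _ => K)} := by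
      have : {p : (Fin d → ℝ) × (Fin d → ℝ) |
          p.2 ∈ S ∧ p.2 ∈ Icc (p.1 - fun _ => K) (p.1 + fun _ => K)} =
          (Prod.snd ⁻¹' S) ∩ ({p | (p.1 - fun _ => K) ≤ p.2} ∩ {p | p.2 ≤ p.1 + fun _ => K}) := by
        ext p; simp [mem_Icc]
      rw [this]
      exact (measurable_snd hS).inter ((isClosed_le (by fun_prop) (by fun_prop)).inter
        (isClosed_le (by fun_prop) (by fun_prop))).measurableSet
    calc ∫⁻ a, s a = ∫⁻ a, volume (Prod.mk a ⁻¹' {p : (Fin d → ℝ) × (Fin d → ℝ) |
        p.2 ∈ S ∧ p.2 ∈ Icc (p.1 - fun _ => K) (p.1 + fun _ => K)}) := rfl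
      _ = ∫⁻ y, volume ((fun a => (a, y)) ⁻¹' {p : (Fin d → ℝ) × (Fin d → ℝ) |
        p.2 ∈ S ∧ p.2 ∈ Icc (p.1 - fun _ => K) (p.1 + fun _ => K)}) := by
          rw [← Measure.prod_apply_symm hm, Measure.prod_apply hm]
      _ ≤ ∫⁻ y, S.indicator (fun _ => ENNReal.ofReal ((2 * K) ^ d)) y := by
          apply lintegral_mono
          intro y
          by_cases hy : y ∈ S
          · rw [indicator_of_mem hy]
            have h1 : ((fun a => (a, y)) ⁻¹' {p : (Fin d → ℝ) × (Fin d → ℝ) |
                p.2 ∈ S ∧ p.2 ∈ Icc (p.1 - fun _ => K) (p.1 + fun _ => K)}) ⊆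
                Icc (y - fun _ => K) (y + fun _ => K) := by
              rintro a ⟨_, h3, h4⟩
              refine ⟨fun l => ?_, fun l => ?_⟩
              · have := h4 l
                simp only [Pi.add_apply, Pi.sub_apply] at this ⊢
                linarith
              · have := h3 l
                simp only [Pi.add_apply, Pi.sub_apply] at this ⊢
                linarith
            refine (measure_mono h1).trans ?_
            rw [Real.volume_Icc_pi]
            simp only [Pi.add_apply, Pi.sub_apply]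
            have : ∀ l : Fin d, y l + K - (y l - K) = 2 * K := fun l => by ring
            simp_rw [this]
            rw [Finset.prod_const, Finset.card_univ, Fintype.card_fin, ENNReal.ofReal_pow (by positivity)]
          · rw [indicator_of_notMem hy]
            have : ((fun a => (a, y)) ⁻¹' {p : (Fin d → ℝ) × (Fin d → ℝ) |
                p.2 ∈ S ∧ p.2 ∈ Icc (p.1 - fun _ => K) (p.1 + fun _ => K)}) = ∅ := by
              rw [eq_empty_iff_forall_notMem]
              rintro a ⟨h2, _⟩
              exact hy h2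
            show volume _ ≤ _
            rw [this]; simp
      _ = ENNReal.ofReal ((2 * K) ^ d) * volume S := by
          rw [lintegral_indicator hS, setLIntegral_const]
      _ ≤ ENNReal.ofReal ((2 * K) ^ d) * ENNReal.ofReal A := by gcongr
      _ = _ := by rw [← ENNReal.ofReal_mul (by positivity)]
  have hfin : ENNReal.ofReal (c / 2) ≤ ENNReal.ofReal (c / 4) := by
    calc ENNReal.ofReal (c / 2) ≤ ∫⁻ a, e a := hIe
      _ ≤ ∫⁻ a, ENNReal.ofReal κ1 * s a := lintegral_mono hes
      _ = ENNReal.ofReal κ1 * ∫⁻ a, s a := lintegral_const_mul' _ _ ENNReal.ofReal_ne_top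
      _ ≤ ENNReal.ofReal κ1 * ENNReal.ofReal ((2 * K) ^ d * A) := by gcongr
      _ = ENNReal.ofReal (c / 4) := by
          rw [← ENNReal.ofReal_mul hκ1pos.le]
          congr 1
          rw [hκ1]; field_simp
  rw [ENNReal.ofReal_le_ofReal_iff (by positivity)] at hfin
  linarith

end Pool.Agent.H894R3.Box
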