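import Mathlib

namespace Pool.Agent.H894R3.Chain

open MeasureTheory Set
open scoped ENNReal Pointwise

set_option linter.unusedSectionVars false

theorem cs {α : Type*} [MeasurableSpace α] (m : Measure α) (A : α → ENNReal) (hA : Measurable A)
    (T : Set α) (hT : MeasurableSet T) (hsupp : ∀ x, x ∉ T → A x = 0) :
    (∫⁻ x, A x ∂m) ^ 2 ≤ m T * ∫⁻ x, (A x) ^ 2 ∂m := by
  have h := ENNReal.lintegral_mul_le_Lp_mul_Lq m Real.HolderConjugate.two_two hA.aemeasurable
    ((measurable_const.indicator hT).aemeasurable (f := T.indicator fun _ => (1 : ENNReal)))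
  have h1 : (A * T.indicator fun _ => (1 : ENNReal)) = A := by
    funext x
    by_cases hx : x ∈ T
    · simp [hx]
    · simp [hx, hsupp x hx]
  rw [h1] at h
  have h2 : ∫⁻ x, (T.indicator (fun _ => (1 : ENNReal)) x) ^ (2 : ℝ) ∂m = m T := by
    have : (fun x => (T.indicator (fun _ => (1 : ENNReal)) x) ^ (2 : ℝ)) =
        T.indicator fun _ => (1 : ENNReal) := by
      funext x
      by_cases hx : x ∈ T
      · simp [hx]
      · simp [hx]
    rw [this, lintegral_indicator hT]
    simp
  rw [h2] at h
  have h3 : ∀ u : ENNReal, (u ^ (1 / (2 : ℝ))) ^ 2 = u := by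
    intro u
    rw [← ENNReal.rpow_natCast, ← ENNReal.rpow_mul]
    norm_num
  calc (∫⁻ x, A x ∂m) ^ 2 ≤ ((∫⁻ x, A x ^ (2 : ℝ) ∂m) ^ (1 / (2 : ℝ)) * (m T) ^ (1 / (2 : ℝ))) ^ 2 := by
        gcongr
    _ = m T * ∫⁻ x, (A x) ^ 2 ∂m := by
        rw [mul_pow, h3, h3, mul_comm]
        simp

variable {V : Type*} [NormedAddCommGroup V] [NormedSpace ℝ V] [FiniteDimensional ℝ V]
  [MeasureSpace V] [BorelSpace V] [(volume : Measure V).IsAddHaarMeasure]

theorem cs_slice (S : Set V) (hS : MeasurableSet S) (h : V → V → ENNReal)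
    (hm : Measurable (Function.uncurry h)) (t : ℝ) (ht0 : 0 ≤ t) (ht1 : t ≤ 1)
    (hsupp : ∀ y0 y1, h y0 y1 ≠ 0 → (1 + t)⁻¹ • (y1 + t • y0) ∈ S) :
    (∫⁻ y0, ∫⁻ y1, h y0 y1) ^ 2 ≤ (2 ^ (Module.finrank ℝ V) * volume S) *
      ∫⁻ y0, ∫⁻ y1, h y0 y1 * ∫⁻ z, h z (y1 + t • (y0 - z)) := by
  have ht : (0 : ℝ) < 1 + t := by linarith
  let A : V → ENNReal := fun w => ∫⁻ y, h y (w - t • y)
  have hA : Measurable A := by
    have : Measurable fun p : V × V => h p.2 (p.1 - t • p.2) := by
      exact hm.comp (measurable_snd.prodMk (measurable_fst.sub (measurable_snd.const_smul t)))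
    exact this.lintegral_prod_right'
  have hswap1 : ∫⁻ w, A w = ∫⁻ y0, ∫⁻ y1, h y0 y1 := by
    simp only [A]
    rw [lintegral_lintegral_swap]
    · apply lintegral_congr
      intro y
      exact lintegral_sub_right_eq_self (fun w => h y w) (t • y)
    · exact (hm.comp (measurable_snd.prodMk
        (measurable_fst.sub (measurable_snd.const_smul t)))).aemeasurable
  have hswap2 : ∫⁻ w, (A w) ^ 2 = ∫⁻ y0, ∫⁻ y1, h y0 y1 * ∫⁻ z, h z (y1 + t • (y0 - z)) := by
    have e1 : ∀ w, (A w) ^ 2 = ∫⁻ y, h y (w - t • y) * A w := by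
      intro w
      rw [lintegral_mul_const]
      · rw [sq]
      · exact hm.comp (measurable_id.prodMk (measurable_const.sub (measurable_id.const_smul t)))
    simp_rw [e1]
    rw [lintegral_lintegral_swap]
    · apply lintegral_congr
      intro y
      have e2 := lintegral_sub_right_eq_self (μ := volume) (fun w => h y w * A (w + t • y)) (t • y)
      simp only [sub_add_cancel] at e2
      rw [e2]
      apply lintegral_congr
      intro y1
      congr 1
      simp only [A]
      apply lintegral_congr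
      intro z
      congr 1
      rw [smul_sub]; abel
    · have m1 : Measurable fun p : V × V => h p.2 (p.1 - t • p.2) := by
        exact hm.comp (measurable_snd.prodMk (measurable_fst.sub (measurable_snd.const_smul t)))
      exact (m1.mul (hA.comp measurable_fst)).aemeasurable
  have hvol : volume ((1 + t) • S) ≤ 2 ^ (Module.finrank ℝ V) * volume S := by
    rw [Measure.addHaar_smul]
    gcongr
    rw [show (2 : ENNReal) ^ (Module.finrank ℝ V) = ENNReal.ofReal (2 ^ (Module.finrank ℝ V)) by
      rw [ENNReal.ofReal_pow (by norm_num)]; norm_num]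
    apply ENNReal.ofReal_le_ofReal
    rw [abs_pow, abs_of_pos ht]
    gcongr
    linarith
  have hTm : MeasurableSet ((1 + t) • S) := hS.const_smul₀ _
  have hAs : ∀ w, w ∉ ((1 + t) • S) → A w = 0 := by
    intro w hw
    simp only [A]
    rw [lintegral_eq_zero_iff]
    · refine Filter.Eventually.of_forall fun y => ?_
      by_contra hne
      apply hw
      have := hsupp y (w - t • y) hne
      rw [sub_add_cancel] at this
      rw [mem_smul_set_iff_inv_smul_mem₀ ht.ne']
      exact this
    · exact hm.comp (measurable_id.prodMk (measurable_const.sub (measurable_id.const_smul t)))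
  have := cs volume A hA _ hTm hAs
  rw [hswap1, hswap2] at this
  exact this.trans (mul_le_mul_left hvol _)


/-- Fubini for tuples -/
theorem fub (M : ℕ) (S : Set V) (hS : MeasurableSet S) (F : (Fin (M + 1) → V) → ENNReal)
    (hF : Measurable F) :
    ∫⁻ z in Set.pi univ (fun _ : Fin (M + 1) => S), F z =
      ∫⁻ z0 in S, ∫⁻ z in Set.pi univ (fun _ : Fin M => S), F (Fin.cons z0 z) := by
  let e := MeasurableEquiv.piFinSuccAbove (fun _ : Fin (M + 1) => V) 0
  have he : MeasurePreserving e volume volume := volume_preserving_piFinSuccAbove (fun _ => V) 0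
  have h1 := (he.symm e).setLIntegral_comp_preimage
    (MeasurableSet.univ_pi fun _ : Fin (M + 1) => hS) hF
  rw [← h1]
  have h2 : e.symm ⁻¹' (Set.pi univ fun _ : Fin (M + 1) => S) =
      S ×ˢ (Set.pi univ fun _ : Fin M => S) := by
    ext ⟨z0, z⟩
    simp only [mem_preimage, Set.mem_pi, mem_univ, forall_true_left, mem_prod]
    constructor
    · intro h
      refine ⟨?_, fun i => ?_⟩
      · simpa [e] using h 0
      · simpa [e] using h i.succ
    · rintro ⟨h3, h4⟩ i
      refine Fin.cases ?_ (fun i => ?_) i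
      · simpa [e] using h3
      · simpa [e] using h4 i
  rw [h2, show (volume : Measure (V × (Fin M → V))) = (volume : Measure V).prod volume from rfl,
    ← Measure.prod_restrict, lintegral_prod]
  · apply lintegral_congr
    intro z0
    apply lintegral_congr
    intro z
    congr 1
    simp only [e, MeasurableEquiv.piFinSuccAbove_symm_apply]
    simp
    rfl
  · exact (hF.comp e.symm.measurable).aemeasurable

/-- the total shift -/
def shift {M : ℕ} (z : Fin (M + 1) → V) (μ : Fin M → ℝ) : V :=
  ∑ i, μ i • (z i.castSucc - z i.succ)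

theorem shift_cons {M : ℕ} (y0 z0 : V) (z : Fin M → V) (μ : Fin (M + 1) → ℝ) :
    shift (Fin.cons y0 (Fin.cons z0 z : Fin (M + 1) → V) : Fin (M + 2) → V) μ =
      μ 0 • (y0 - z0) + shift (Fin.cons z0 z : Fin (M + 1) → V) (Fin.tail μ) := by
  unfold shift
  rw [Fin.sum_univ_succ]
  congr 1

theorem continuous_shift {M : ℕ} : Continuous fun p : (Fin (M + 1) → V) × (Fin M → ℝ) =>
    shift p.1 p.2 := by
  unfold shift
  fun_prop

variable {R : Type*} [MeasurableSpace R]

theorem ind_le {α : Type*} (E : Set α) (p : α) : E.indicator (fun _ => (1 : ENNReal)) p ≤ 1 := by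
  by_cases h : p ∈ E
  · simp [h]
  · simp [h]

/-- the chain functions -/
noncomputable def J (S : Set V) (E : Set (V × V × R)) (g : V → R → ENNReal) :
    ∀ M : ℕ, (Fin M → ℝ) → V → V → R → ENNReal
  | 0, _, y0, y1, r => E.indicator (fun _ => 1) (y0, y1, r) * g y1 r
  | M + 1, μ, y0, y1, r => E.indicator (fun _ => 1) (y0, y1, r) *
      ∫⁻ z in S, J S E g M (Fin.tail μ) z (y1 + μ 0 • (y0 - z)) r

section

variable (S : Set V) (hS : MeasurableSet S) (hS1 : volume S ≤ 1) (E : Set (V × V × R))
  (hE : MeasurableSet E) (g : V → R → ENNReal) (hg : Measurable (Function.uncurry g))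
  (hg1 : ∀ y r, g y r ≤ 1)

include hS1 hg1 in
theorem J_le : ∀ (M : ℕ) (μ : Fin M → ℝ) (y0 y1 : V) (r : R),
    J S E g M μ y0 y1 r ≤ E.indicator (fun _ => 1) (y0, y1, r) := by
  intro M
  induction M with
  | zero =>
    intro μ y0 y1 r
    simp only [J]
    exact mul_le_of_le_one_right (by simp) (hg1 _ _)
  | succ M ih =>
    intro μ y0 y1 r
    simp only [J]
    refine mul_le_of_le_one_right (by simp) ?_
    calc ∫⁻ z in S, J S E g M (Fin.tail μ) z (y1 + μ 0 • (y0 - z)) r ≤ ∫⁻ z in S, 1 := by
          apply lintegral_mono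
          intro z
          refine (ih _ _ _ _).trans ?_
          exact ind_le _ _
      _ ≤ 1 := by simpa using hS1

include hE hg in
theorem J_meas : ∀ (M : ℕ) (μ : Fin M → ℝ),
    Measurable fun p : V × V × R => J S E g M μ p.1 p.2.1 p.2.2 := by
  intro M
  induction M with
  | zero =>
    intro μ
    simp only [J]
    exact (measurable_const.indicator hE).mul (hg.comp measurable_snd)
  | succ M ih =>
    intro μ
    simp only [J]
    refine (measurable_const.indicator hE).mul ?_
    have h1 : Measurable fun q : (V × V × R) × V =>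
        J S E g M (Fin.tail μ) q.2 (q.1.2.1 + μ 0 • (q.1.1 - q.2)) q.1.2.2 := by
      have h2 : Measurable fun q : (V × V × R) × V =>
          ((q.2, q.1.2.1 + μ 0 • (q.1.1 - q.2), q.1.2.2) : V × V × R) := by fun_prop
      exact (ih (Fin.tail μ)).comp h2
    exact h1.lintegral_prod_right'

include hS1 hE hg hg1 in
theorem J_step (ρ : Measure R) [SFinite ρ] (RS : Set R) (hRS : MeasurableSet RS) (hRS1 : ρ RS ≤ 1)
    (hES : ∀ y0 y1 r, (y0, y1, r) ∈ E → y0 ∈ S ∧ y1 ∈ S ∧ r ∈ RS)
    (hconv : ∀ y0 y1 r, (y0, y1, r) ∈ E → ∀ t : ℝ, 0 ≤ t → t ≤ 1 →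
      (1 + t)⁻¹ • (y1 + t • y0) ∈ S) (hS : MeasurableSet S)
    (M : ℕ) (μ : Fin (M + 1) → ℝ) (h0 : 0 ≤ μ 0) (h1 : μ 0 ≤ 1) :
    (∫⁻ r, (∫⁻ y0, ∫⁻ y1, J S E g M (Fin.tail μ) y0 y1 r) ∂ρ) ^ 2 ≤ 2 ^ (Module.finrank ℝ V) *
      ∫⁻ r, (∫⁻ y0, ∫⁻ y1, J S E g (M + 1) μ y0 y1 r) ∂ρ := by
  have hJm := J_meas S E hE g hg M (Fin.tail μ)
  have hJl := J_le S hS1 E g hg1 M (Fin.tail μ)
  have hsup : ∀ y0 y1 r, J S E g M (Fin.tail μ) y0 y1 r ≠ 0 → (y0, y1, r) ∈ E := by
    intro y0 y1 r hne
    by_contra hcon
    have := hJl y0 y1 r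
    rw [indicator_of_notMem hcon] at this
    exact hne (le_antisymm this (by simp))
  have hslice : ∀ r, (∫⁻ y0, ∫⁻ y1, J S E g M (Fin.tail μ) y0 y1 r) ^ 2 ≤
      2 ^ (Module.finrank ℝ V) * ∫⁻ y0, ∫⁻ y1, J S E g (M + 1) μ y0 y1 r := by
    intro r
    have hm : Measurable (Function.uncurry fun y0 y1 => J S E g M (Fin.tail μ) y0 y1 r) := by
      have : Measurable fun p : V × V => ((p.1, p.2, r) : V × V × R) := by fun_prop
      exact hJm.comp this
    have h2 := cs_slice S hS (fun y0 y1 => J S E g M (Fin.tail μ) y0 y1 r) hm (μ 0) h0 h1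
      (fun y0 y1 hne => hconv y0 y1 r (hsup y0 y1 r hne) (μ 0) h0 h1)
    refine h2.trans ?_
    have h3 : 2 ^ (Module.finrank ℝ V) * volume S ≤ 2 ^ (Module.finrank ℝ V) * 1 := by gcongr
    rw [mul_one] at h3
    refine (mul_le_mul_left h3 _).trans ?_
    gcongr with y0 y1
    simp only [J]
    refine mul_le_mul' (hJl _ _ _) (le_of_eq ?_)
    rw [← lintegral_indicator hS]
    apply lintegral_congr
    intro z
    by_cases hz : z ∈ S
    · rw [indicator_of_mem hz]
    · rw [indicator_of_notMem hz]
      by_contra hne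
      exact hz (hES _ _ _ (hsup _ _ _ hne)).1
  have hAm : Measurable fun r => ∫⁻ y0, ∫⁻ y1, J S E g M (Fin.tail μ) y0 y1 r := by
    have m1 : Measurable fun q : (R × V) × V => J S E g M (Fin.tail μ) q.1.2 q.2 q.1.1 := by
      have : Measurable fun q : (R × V) × V => ((q.1.2, q.2, q.1.1) : V × V × R) := by fun_prop
      exact hJm.comp this
    exact m1.lintegral_prod_right'.lintegral_prod_right'
  have h4 := cs ρ _ hAm RS hRS (by
    intro r hr
    have : ∀ y0 y1, J S E g M (Fin.tail μ) y0 y1 r = 0 := by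
      intro y0 y1
      by_contra hne
      exact hr (hES _ _ _ (hsup _ _ _ hne)).2.2
    simp [this])
  calc _ ≤ ρ RS * ∫⁻ r, (∫⁻ y0, ∫⁻ y1, J S E g M (Fin.tail μ) y0 y1 r) ^ 2 ∂ρ := h4
    _ ≤ 1 * ∫⁻ r, (2 ^ (Module.finrank ℝ V) * ∫⁻ y0, ∫⁻ y1, J S E g (M + 1) μ y0 y1 r) ∂ρ := by
        gcongr with r
        exact hslice r
    _ = _ := by
        rw [one_mul, lintegral_const_mul']
        exact ENNReal.pow_ne_top (by norm_num)

include hE hg in
theorem J_le_int (hS : MeasurableSet S) : ∀ (M : ℕ) (μ : Fin M → ℝ) (y0 y1 : V) (r : R),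
    J S E g M μ y0 y1 r ≤ ∫⁻ z in Set.pi univ (fun _ : Fin M => S),
      g (y1 + shift (Fin.cons y0 z : Fin (M + 1) → V) μ) r := by
  intro M
  induction M with
  | zero =>
    intro μ y0 y1 r
    simp only [J]
    have h1 : ∀ z : Fin 0 → V, y1 + shift (Fin.cons y0 z : Fin (0 + 1) → V) μ = y1 := by
      intro z; simp [shift]
    simp_rw [h1]
    rw [setLIntegral_const, volume_pi_pi]
    simp only [Finset.univ_eq_empty, Finset.prod_empty, mul_one]
    exact mul_le_of_le_one_left (by simp) (ind_le _ _)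
  | succ M ih =>
    intro μ y0 y1 r
    have hgr : Measurable fun y => g y r := hg.comp (measurable_id.prodMk measurable_const)
    rw [fub M S hS]
    · simp only [J]
      refine (mul_le_of_le_one_left (by simp) (ind_le _ _)).trans ?_
      apply lintegral_mono
      intro z0
      refine (ih _ _ _ _).trans (le_of_eq ?_)
      apply lintegral_congr
      intro z
      congr 1
      rw [shift_cons, ← add_assoc]
    · apply hgr.comp
      have : Continuous fun z : Fin (M + 1) → V => y1 + shift (Fin.cons y0 z : Fin (M + 2) → V) μ := by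
        refine continuous_const.add ?_
        have h2 : Continuous fun z : Fin (M + 1) → V =>
            ((Fin.cons y0 z : Fin (M + 2) → V), μ) := by
          refine Continuous.prodMk ?_ continuous_const
          refine continuous_pi fun i => ?_
          refine Fin.cases ?_ (fun i => ?_) i
          · simpa using continuous_const
          · simpa using continuous_apply i
        exact continuous_shift.comp h2
      exact this.measurable

end

/-- the constants -/
noncomputable def cst (D : ℕ) (c : ℝ) : ℕ → ℝ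
  | 0 => c ^ 2
  | M + 1 => (cst D c M) ^ 2 / 2 ^ D

theorem cst_pos (D : ℕ) {c : ℝ} (hc : 0 < c) : ∀ M, 0 < cst D c M := by
  intro M
  induction M with
  | zero => simp only [cst]; positivity
  | succ M ih => simp only [cst]; positivity

/-- The chain inequality. -/
theorem chain (S : Set V) (hS : MeasurableSet S) (hS1 : volume S ≤ 1) (E : Set (V × V × R))
    (hE : MeasurableSet E) (ρ : Measure R) [SFinite ρ] (RS : Set R) (hRS : MeasurableSet RS)
    (hRS1 : ρ RS ≤ 1)
    (hES : ∀ y0 y1 r, (y0, y1, r) ∈ E → y0 ∈ S ∧ y1 ∈ S ∧ r ∈ RS)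
    (hconv : ∀ y0 y1 r, (y0, y1, r) ∈ E → ∀ t : ℝ, 0 ≤ t → t ≤ 1 →
      (1 + t)⁻¹ • (y1 + t • y0) ∈ S) (c : ℝ) (hc : 0 ≤ c)
    (hEc : ENNReal.ofReal c ≤ ∫⁻ r, (∫⁻ y0, ∫⁻ y1, E.indicator (fun _ => 1) (y0, y1, r)) ∂ρ)
    (M : ℕ) (μ : Fin M → ℝ) (hμ : ∀ i, 0 ≤ μ i ∧ μ i ≤ 1) :
    ENNReal.ofReal (cst (Module.finrank ℝ V) c M) ≤ ∫⁻ r in RS, (∫⁻ y1 in S,
      ∫⁻ z in Set.pi univ (fun _ : Fin (M + 1) => S),
        ∫⁻ w in S, E.indicator (fun _ => 1) (w, y1 + shift z μ, r)) ∂ρ := by
  let g : V → R → ENNReal := fun y r => ∫⁻ w in S, E.indicator (fun _ => 1) (w, y, r)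
  have hg : Measurable (Function.uncurry g) := by
    have m1 : Measurable fun q : (V × R) × V => E.indicator (fun _ => (1 : ENNReal))
        ((q.2, q.1.1, q.1.2) : V × V × R) := by
      have m2 : Measurable fun q : (V × R) × V => ((q.2, q.1.1, q.1.2) : V × V × R) := by fun_prop
      exact (measurable_const.indicator hE).comp m2
    exact m1.lintegral_prod_right'
  have hg1 : ∀ y r, g y r ≤ 1 := by
    intro y r
    calc g y r ≤ ∫⁻ w in S, 1 := lintegral_mono fun w => ind_le _ _
      _ ≤ 1 := by simpa using hS1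
  have hgfull : ∀ y r, g y r = ∫⁻ w, E.indicator (fun _ => 1) (w, y, r) := by
    intro y r
    simp only [g]
    rw [← lintegral_indicator hS]
    apply lintegral_congr
    intro w
    by_cases hw : w ∈ S
    · rw [indicator_of_mem hw]
    · rw [indicator_of_notMem hw, indicator_of_notMem]
      intro hcon
      exact hw (hES _ _ _ hcon).1
  have hsw : ∀ (r : R) (f : V → ENNReal), Measurable f →
      (∫⁻ y0, ∫⁻ y1, E.indicator (fun _ => 1) (y0, y1, r) * f y1) = ∫⁻ y1, g y1 r * f y1 := by
    intro r f hf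
    have m1 : Measurable fun q : V × V => E.indicator (fun _ => (1 : ENNReal))
        ((q.1, q.2, r) : V × V × R) := by
      have m2 : Measurable fun q : V × V => ((q.1, q.2, r) : V × V × R) := by fun_prop
      exact (measurable_const.indicator hE).comp m2
    rw [lintegral_lintegral_swap]
    · apply lintegral_congr
      intro y1
      rw [lintegral_mul_const, hgfull]
      exact m1.comp (measurable_id.prodMk measurable_const)
    · exact (m1.mul (hf.comp measurable_snd)).aemeasurable
  have hgm : ∀ r, Measurable fun y => g y r := fun r =>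
    hg.comp (measurable_id.prodMk measurable_const)
  have hbase : ENNReal.ofReal (c ^ 2) ≤ ∫⁻ r, (∫⁻ y1, (g y1 r) ^ 2) ∂ρ := by
    have e1 : ENNReal.ofReal c ≤ ∫⁻ r, (∫⁻ y1, g y1 r) ∂ρ := by
      refine hEc.trans (le_of_eq ?_)
      apply lintegral_congr
      intro r
      have := hsw r (fun _ => 1) measurable_const
      simpa using this
    have hm' : Measurable fun q : R × V => g q.2 q.1 :=
      hg.comp (measurable_snd.prodMk measurable_fst)
    have h2 := cs (ρ.prod volume) (fun q : R × V => g q.2 q.1) hm' (RS ×ˢ S) (hRS.prod hS) (by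
      rintro ⟨r, y⟩ hq
      show g y r = 0
      rw [hgfull, lintegral_eq_zero_iff]
      · refine Filter.Eventually.of_forall fun w => ?_
        show E.indicator (fun _ => (1 : ENNReal)) (w, y, r) = 0
        rw [indicator_of_notMem]
        intro hcon
        exact hq ⟨(hES _ _ _ hcon).2.2, (hES _ _ _ hcon).2.1⟩
      · have m2 : Measurable fun w : V => ((w, y, r) : V × V × R) := by fun_prop
        exact (measurable_const.indicator hE).comp m2)
    rw [lintegral_prod _ hm'.aemeasurable, lintegral_prod _ (hm'.pow_const 2).aemeasurable,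
      Measure.prod_prod] at h2
    rw [ENNReal.ofReal_pow hc]
    calc ENNReal.ofReal c ^ 2 ≤ (∫⁻ r, (∫⁻ y1, g y1 r) ∂ρ) ^ 2 := by gcongr
      _ ≤ _ := h2
      _ ≤ 1 * 1 * ∫⁻ r, (∫⁻ y1, (g y1 r) ^ 2) ∂ρ := by gcongr
      _ = _ := by rw [one_mul, one_mul]
  have hind : ∀ (M : ℕ) (μ : Fin M → ℝ), (∀ i, 0 ≤ μ i ∧ μ i ≤ 1) →
      ENNReal.ofReal (cst (Module.finrank ℝ V) c M) ≤
        ∫⁻ r, (∫⁻ y0, ∫⁻ y1, J S E g M μ y0 y1 r) ∂ρ := by
    intro M
    induction M with
    | zero =>
      intro μ _
      simp only [cst, J]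
      refine hbase.trans (le_of_eq ?_)
      apply lintegral_congr
      intro r
      rw [hsw r (fun y => g y r) (hgm r)]
      apply lintegral_congr
      intro y1
      rw [sq]
    | succ M ih =>
      intro μ hμ
      have h1 := ih (Fin.tail μ) (fun i => hμ i.succ)
      have h2 := J_step S hS1 E hE g hg hg1 ρ RS hRS hRS1 hES hconv hS M μ (hμ 0).1 (hμ 0).2
      simp only [cst]
      have hcp : 0 ≤ cst (Module.finrank ℝ V) c M := by
        clear ih h1 h2
        cases M with
        | zero => simp only [cst]; positivity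
        | succ M => simp only [cst]; positivity
      rw [ENNReal.ofReal_div_of_pos (by positivity), ENNReal.ofReal_pow hcp]
      have h3 : ENNReal.ofReal ((2 : ℝ) ^ (Module.finrank ℝ V)) = 2 ^ (Module.finrank ℝ V) := by
        rw [ENNReal.ofReal_pow (by norm_num)]; norm_num
      rw [h3]
      apply ENNReal.div_le_of_le_mul'
      refine le_trans ?_ h2
      gcongr
  refine (hind M μ hμ).trans ?_
  have hJm := J_meas S E hE g hg M μ
  have hJl := J_le S hS1 E g hg1 M μ
  have hsup : ∀ y0 y1 r, J S E g M μ y0 y1 r ≠ 0 → (y0, y1, r) ∈ E := by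
    intro y0 y1 r hne
    by_contra hcon
    have := hJl y0 y1 r
    rw [indicator_of_notMem hcon] at this
    exact hne (le_antisymm this (by simp))
  have hint : Measurable fun q : ((Fin (M + 1) → V) × V) × R => g (q.1.2 + shift q.1.1 μ) q.2 := by
    have m2 : Measurable fun q : ((Fin (M + 1) → V) × V) × R =>
        (q.1.2 + shift q.1.1 μ, q.2) := by
      refine Measurable.prodMk ?_ measurable_snd
      have : Continuous fun q : (Fin (M + 1) → V) × V => q.2 + shift q.1 μ := by
        exact continuous_snd.add (continuous_shift.comp (continuous_fst.prodMk continuous_const))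
      exact this.measurable.comp measurable_fst
    exact hg.comp m2
  calc ∫⁻ r, (∫⁻ y0, ∫⁻ y1, J S E g M μ y0 y1 r) ∂ρ
      ≤ ∫⁻ r, RS.indicator (fun r => ∫⁻ y1 in S, ∫⁻ z in Set.pi univ (fun _ : Fin (M + 1) => S),
          g (y1 + shift z μ) r) r ∂ρ := by
        apply lintegral_mono
        intro r
        by_cases hr : r ∈ RS
        · rw [indicator_of_mem hr]
          show ∫⁻ y0, ∫⁻ y1, J S E g M μ y0 y1 r ≤ _
          have m1 : Measurable fun q : V × V => J S E g M μ q.1 q.2 r := by
            have : Measurable fun p : V × V => ((p.1, p.2, r) : V × V × R) := by fun_prop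
            exact hJm.comp this
          rw [lintegral_lintegral_swap m1.aemeasurable, ← lintegral_indicator hS]
          apply lintegral_mono
          intro y1
          by_cases hy1 : y1 ∈ S
          · rw [indicator_of_mem hy1]
            rw [fub M S hS _ ?_]
            · rw [← lintegral_indicator hS]
              apply lintegral_mono
              intro y0
              by_cases hy0 : y0 ∈ S
              · rw [indicator_of_mem hy0]
                exact J_le_int S E hE g hg hS M μ y0 y1 r
              · rw [indicator_of_notMem hy0]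
                by_contra hcon
                exact hy0 (hES _ _ _ (hsup y0 y1 r (fun h0 => hcon (le_of_eq h0)))).1
            · exact hint.comp ((measurable_id.prodMk measurable_const).prodMk measurable_const)
          · rw [indicator_of_notMem hy1]
            show ∫⁻ y0, J S E g M μ y0 y1 r ≤ 0
            have : ∀ y0, J S E g M μ y0 y1 r = 0 := by
              intro y0
              by_contra hne
              exact hy1 (hES _ _ _ (hsup _ _ _ hne)).2.1
            simp [this]
        · rw [indicator_of_notMem hr]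
          show ∫⁻ y0, ∫⁻ y1, J S E g M μ y0 y1 r ≤ 0
          have : ∀ y0 y1, J S E g M μ y0 y1 r = 0 := by
            intro y0 y1
            by_contra hne
            exact hr (hES _ _ _ (hsup _ _ _ hne)).2.2
          simp [this]
    _ = _ := by rw [lintegral_indicator hRS]

end Pool.Agent.H894R3.Chain
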