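import Mathlib

namespace Pool.Agent.H894R3.SmallBall

open MeasureTheory Set Matrix

theorem ae_det_add_ne {ι : Type*} [Fintype ι] [DecidableEq ι] (M : Matrix ι ι ℝ) :
    ∀ᵐ s : ℝ, (M + s • (1 : Matrix ι ι ℝ)).det ≠ 0 := by
  have hfin : {s : ℝ | (M + s • (1 : Matrix ι ι ℝ)).det = 0}.Finite := by
    have hne : (-M).charpoly ≠ 0 := (charpoly_monic _).ne_zero
    refine (Polynomial.finite_setOfPred_isRoot hne).subset ?_
    intro s hs
    simp only [mem_ofPred_eq] at hs
    simp only [mem_ofPred_eq, Polynomial.IsRoot.def, eval_charpoly]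
    rw [← hs]
    congr 1
    ext i j
    by_cases hij : i = j
    · subst hij; simp; ring
    · simp [hij]
  rw [ae_iff]
  simp only [not_not]
  exact hfin.measure_zero _

theorem det_null (ι : Type*) [Fintype ι] [DecidableEq ι] :
    volume {x : ι → ι → ℝ | (Matrix.of x).det = 0} = 0 := by
  let L : ℝ →ₗ[ℝ] (ι → ι → ℝ) := LinearMap.toSpanSingleton ℝ _ (fun i j => if i = j then 1 else 0)
  have hcont : Continuous fun x : ι → ι → ℝ => (Matrix.of x).det := by
    refine Continuous.matrix_det ?_
    exact continuous_id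
  have hmeas : MeasurableSet {x : ι → ι → ℝ | (Matrix.of x).det ≠ 0} :=
    (hcont.measurable (measurableSet_singleton (0 : ℝ))).compl
  have h := ae_mem_of_ae_add_linearMap_mem L volume volume hmeas (by
    intro y
    filter_upwards [ae_det_add_ne (Matrix.of y)] with s hs
    show (Matrix.of (y + L s)).det ≠ 0
    convert hs using 2
    ext i j
    by_cases hij : i = j
    · subst hij; simp [L]
    · simp [L, hij])
  rw [ae_iff] at h
  simpa using h


/-- volume of a parallelepiped like set -/
theorem volume_box {ι : Type*} [Fintype ι] [DecidableEq ι] (A : Matrix ι ι ℝ) (hA : A.det ≠ 0)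
    (j : ι) (η : ℝ) (hη : 0 ≤ η) :
    volume {y : ι → ℝ | (∀ i, i ≠ j → |(A.updateRow i y).det| ≤ |A.det|) ∧
      |(A.updateRow j y).det| < η} ≤ ENNReal.ofReal (2 ^ (Fintype.card ι) * η) := by
  have hA0 : 0 < |A.det| := abs_pos.2 hA
  let f : (ι → ℝ) →ₗ[ℝ] (ι → ℝ) := Matrix.toLin' (A⁻¹)ᵀ
  have hdetf : LinearMap.det f = (A.det)⁻¹ := by
    simp only [f, LinearMap.det_toLin', Matrix.det_transpose, Matrix.det_nonsing_inv]
    exact Ring.inverse_eq_inv _
  have hf0 : LinearMap.det f ≠ 0 := by rw [hdetf]; exact inv_ne_zero hA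
  have hfy : ∀ (y : ι → ℝ) (i : ι), f y i = (A.det)⁻¹ * (A.updateRow i y).det := by
    intro y i
    have h1 : f y = ((A⁻¹)ᵀ).mulVec y := by simp [f]
    rw [h1, Matrix.transpose_nonsing_inv, Matrix.inv_def, Matrix.smul_mulVec, Pi.smul_apply,
      smul_eq_mul, Matrix.det_transpose, Ring.inverse_eq_inv]
    congr 1
    rw [← Matrix.cramer_eq_adjugate_mulVec, Matrix.cramer_transpose_apply]
  have hsub : {y : ι → ℝ | (∀ i, i ≠ j → |(A.updateRow i y).det| ≤ |A.det|) ∧
      |(A.updateRow j y).det| < η} ⊆ f ⁻¹' (Set.pi univ fun i => Icc (if i = j then -(η / |A.det|) else -1)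
        (if i = j then η / |A.det| else 1)) := by
    rintro y ⟨h1, h2⟩
    simp only [mem_preimage, Set.mem_pi, mem_univ, forall_true_left, mem_Icc]
    intro i
    rw [hfy]
    by_cases hij : i = j
    · subst hij
      simp only [if_true]
      rw [← abs_le, abs_mul, abs_inv, div_eq_inv_mul]
      exact mul_le_mul_of_nonneg_left h2.le (by positivity)
    · simp only [hij, if_false]
      rw [← abs_le, abs_mul, abs_inv]
      rw [inv_mul_le_iff₀ hA0, mul_one]
      exact h1 i hij
  refine (measure_mono hsub).trans ?_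
  rw [Measure.addHaar_preimage_linearMap volume hf0, hdetf, inv_inv, volume_pi_pi]
  have hv : ∀ i : ι, volume (Icc (if i = j then -(η / |A.det|) else -1)
      (if i = j then η / |A.det| else 1)) =
      ENNReal.ofReal (2 * (if i = j then η / |A.det| else 1)) := by
    intro i
    rw [Real.volume_Icc]
    congr 1
    by_cases hij : i = j
    · simp only [hij, if_true]; ring
    · simp only [hij, if_false]; ring
  rw [Finset.prod_congr rfl (fun i _ => hv i), ← ENNReal.ofReal_prod_of_nonneg, ← ENNReal.ofReal_mul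
    (abs_nonneg _)]
  · apply ENNReal.ofReal_le_ofReal
    rw [Finset.prod_mul_distrib, Finset.prod_const, Finset.prod_ite_eq']
    simp only [Finset.mem_univ, if_true, Finset.card_univ]
    apply le_of_eq
    field_simp
  · intro i _
    split_ifs <;> positivity


/-- bounding the volume of a set of tuples by its slices -/
theorem slice_bound {V : Type*} [MeasureSpace V] [SigmaFinite (volume : Measure V)] (n : ℕ)
    (j : Fin (n + 1)) (S : Set V) (hS : MeasurableSet S) (hS1 : volume S ≤ 1)
    (T : Set (Fin (n + 1) → V)) (hT : MeasurableSet T) (hTS : ∀ x ∈ T, ∀ i, x i ∈ S)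
    (c : ENNReal) (h : ∀ r : Fin n → V, volume {y | (j.insertNth y r : Fin (n + 1) → V) ∈ T} ≤ c) :
    volume T ≤ c := by
  let e := MeasurableEquiv.piFinSuccAbove (fun _ : Fin (n + 1) => V) j
  have he : MeasurePreserving e volume volume := volume_preserving_piFinSuccAbove (fun _ => V) j
  have h1 : volume T = volume (e.symm ⁻¹' T) :=
    ((he.symm e).measure_preimage hT.nullMeasurableSet).symm
  rw [h1, show (volume : Measure (V × (Fin n → V))) = (volume : Measure V).prod volume from rfl,
    Measure.prod_apply_symm (e.symm.measurable hT)]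
  calc ∫⁻ r : Fin n → V, volume ((fun y => (y, r)) ⁻¹' (e.symm ⁻¹' T))
      ≤ ∫⁻ r : Fin n → V, (Set.pi univ fun _ => S).indicator (fun _ => c) r := by
        apply lintegral_mono
        intro r
        by_cases hr : r ∈ Set.pi univ (fun _ : Fin n => S)
        · rw [indicator_of_mem hr]
          exact h r
        · rw [indicator_of_notMem hr]
          have : ((fun y => (y, r)) ⁻¹' (e.symm ⁻¹' T)) = ∅ := by
            rw [eq_empty_iff_forall_notMem]
            intro y hy
            apply hr
            intro i _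
            have := hTS _ hy (j.succAbove i)
            simpa [e] using this
          show volume ((fun y => (y, r)) ⁻¹' (e.symm ⁻¹' T)) ≤ 0
          rw [this]; simp
    _ = c * volume (Set.pi univ fun _ : Fin n => S) := by
        rw [lintegral_indicator (MeasurableSet.univ_pi fun _ => hS), setLIntegral_const]
    _ ≤ c * 1 := by
        gcongr
        rw [volume_pi_pi]
        exact Finset.prod_le_one (fun _ _ => by simp) (fun _ _ => hS1)
    _ = c := mul_one c


theorem swap_det {ι : Type*} [Fintype ι] [DecidableEq ι] (M : Matrix ι ι ℝ) (i j : ι) (hij : i ≠ j)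
    (e : ι → ℝ) :
    |((M.updateRow j e).updateRow i (M j)).det| = |(M.updateRow i e).det| := by
  have h : (M.updateRow j e).updateRow i (M j) = (M.updateRow i e).submatrix (Equiv.swap i j) id := by
    ext a b
    simp only [Matrix.submatrix_apply, id, Matrix.updateRow_apply]
    by_cases hai : a = i
    · subst hai
      simp only [Equiv.swap_apply_left, if_true, if_neg (Ne.symm hij)]
    · by_cases haj : a = j
      · subst haj
        simp [Equiv.swap_apply_right, hai]
      · rw [Equiv.swap_apply_of_ne_of_ne hai haj]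
        simp [hai, haj]
  rw [h, Matrix.det_permute]
  rw [abs_mul]
  simp [Equiv.Perm.sign_swap hij]

/-- Small ball estimate for determinants. -/
theorem small_ball (n : ℕ) (S : Set (Fin (n + 1) → ℝ)) (hS : MeasurableSet S)
    (hS1 : volume S ≤ 1) (η : ℝ) (hη : 0 ≤ η) :
    volume {x : Fin (n + 1) → (Fin (n + 1) → ℝ) | (∀ i, x i ∈ S) ∧ |(Matrix.of x).det| < η} ≤
      ENNReal.ofReal ((n + 1) ^ 2 * (2 ^ (n + 1) * η)) := by
  let e : Fin (n + 1) → (Fin (n + 1) → ℝ) := fun m => Pi.single m 1
  let T : Fin (n + 1) → Fin (n + 1) → Set (Fin (n + 1) → (Fin (n + 1) → ℝ)) := fun j m =>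
    {x | (∀ i, x i ∈ S) ∧ ((Matrix.of x).updateRow j (e m)).det ≠ 0 ∧
      (∀ i, i ≠ j → |(((Matrix.of x).updateRow j (e m)).updateRow i (x j)).det| ≤
        |((Matrix.of x).updateRow j (e m)).det|) ∧
      |(((Matrix.of x).updateRow j (e m)).updateRow j (x j)).det| < η}
  have hcover : {x : Fin (n + 1) → (Fin (n + 1) → ℝ) | (∀ i, x i ∈ S) ∧ |(Matrix.of x).det| < η} ⊆
      (⋃ j, ⋃ m, T j m) ∪ {x | (Matrix.of x).det = 0} := by
    rintro x ⟨hxS, hxη⟩
    by_cases h0 : (Matrix.of x).det = 0
    · exact Or.inr h0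
    left
    obtain ⟨p, -, hp⟩ := Finset.exists_max_image (Finset.univ : Finset (Fin (n + 1) × Fin (n + 1)))
      (fun p => |((Matrix.of x).updateRow p.1 (e p.2)).det|) ⟨(0, 0), Finset.mem_univ _⟩
    simp only [mem_iUnion]
    refine ⟨p.1, p.2, hxS, ?_, ?_, ?_⟩
    · intro hz
      apply h0
      have hadj : (Matrix.of x).adjugate = 0 := by
        ext a b
        rw [Matrix.adjugate_apply]
        have := hp (b, a) (Finset.mem_univ _)
        simp only [hz, abs_zero] at this
        simpa [e] using this
      have := Matrix.mul_adjugate (Matrix.of x)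
      rw [hadj, Matrix.mul_zero] at this
      have h2 := congrFun (congrFun this 0) 0
      simpa using h2.symm
    · intro i hi
      have h1 := swap_det (Matrix.of x) i p.1 hi (e p.2)
      rw [show (Matrix.of x) p.1 = x p.1 from rfl] at h1
      rw [h1]
      exact hp (i, p.2) (Finset.mem_univ _)
    · rw [Matrix.updateRow_idem]
      have : (Matrix.of x).updateRow p.1 (x p.1) = Matrix.of x := Matrix.updateRow_eq_self _ _
      rw [this]; exact hxη
  have hT : ∀ j m, MeasurableSet (T j m) := by
    intro j m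
    have hid : Continuous fun x : Fin (n + 1) → (Fin (n + 1) → ℝ) => (Matrix.of x) := continuous_id
    have c1 : Continuous fun x : Fin (n + 1) → (Fin (n + 1) → ℝ) =>
        ((Matrix.of x).updateRow j (e m)).det :=
      (hid.matrix_updateRow j continuous_const).matrix_det
    have c2 : ∀ i, Continuous fun x : Fin (n + 1) → (Fin (n + 1) → ℝ) =>
        (((Matrix.of x).updateRow j (e m)).updateRow i (x j)).det := fun i =>
      ((hid.matrix_updateRow j continuous_const).matrix_updateRow i (continuous_apply j)).matrix_det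
    have m1 : MeasurableSet {x : Fin (n + 1) → (Fin (n + 1) → ℝ) | ∀ i, x i ∈ S} := by
      have : {x : Fin (n + 1) → (Fin (n + 1) → ℝ) | ∀ i, x i ∈ S} = Set.pi univ fun _ => S := by
        ext x; simp
      rw [this]
      exact MeasurableSet.univ_pi fun _ => hS
    have m2 : MeasurableSet {x : Fin (n + 1) → (Fin (n + 1) → ℝ) |
        ((Matrix.of x).updateRow j (e m)).det ≠ 0} :=
      (c1.measurable (measurableSet_singleton (0 : ℝ))).compl
    have m3 : MeasurableSet {x : Fin (n + 1) → (Fin (n + 1) → ℝ) |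
        ∀ i, i ≠ j → |(((Matrix.of x).updateRow j (e m)).updateRow i (x j)).det| ≤
        |((Matrix.of x).updateRow j (e m)).det|} := by
      have : {x : Fin (n + 1) → (Fin (n + 1) → ℝ) |
        ∀ i, i ≠ j → |(((Matrix.of x).updateRow j (e m)).updateRow i (x j)).det| ≤
        |((Matrix.of x).updateRow j (e m)).det|} = ⋂ i, ⋂ (_ : i ≠ j),
          {x | |(((Matrix.of x).updateRow j (e m)).updateRow i (x j)).det| ≤
        |((Matrix.of x).updateRow j (e m)).det|} := by
        ext x; simp
      rw [this]
      refine MeasurableSet.iInter fun i => MeasurableSet.iInter fun _ => ?_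
      exact (isClosed_le (c2 i).abs c1.abs).measurableSet
    have m4 : MeasurableSet {x : Fin (n + 1) → (Fin (n + 1) → ℝ) |
        |(((Matrix.of x).updateRow j (e m)).updateRow j (x j)).det| < η} :=
      (isOpen_lt (c2 j).abs continuous_const).measurableSet
    exact m1.inter (m2.inter (m3.inter m4))
  have hTb : ∀ j m, volume (T j m) ≤ ENNReal.ofReal (2 ^ (n + 1) * η) := by
    intro j m
    refine slice_bound n j S hS hS1 (T j m) (hT j m) (fun x hx => hx.1) _ ?_
    intro r
    have hA : ∀ y : Fin (n + 1) → ℝ, (Matrix.of (j.insertNth y r : Fin (n + 1) → (Fin (n + 1) → ℝ))).updateRow j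
        (e m) = Matrix.of (j.insertNth (e m) r : Fin (n + 1) → (Fin (n + 1) → ℝ)) := by
      intro y
      ext a b
      rw [Matrix.updateRow_apply]
      by_cases haj : a = j
      · subst haj; simp
      · obtain ⟨a', rfl⟩ := Fin.exists_succAbove_eq haj
        simp [haj]
    by_cases h0 : (Matrix.of (j.insertNth (e m) r : Fin (n + 1) → (Fin (n + 1) → ℝ))).det = 0
    · have : {y | (j.insertNth y r : Fin (n + 1) → (Fin (n + 1) → ℝ)) ∈ T j m} = ∅ := by
        rw [eq_empty_iff_forall_notMem]
        rintro y ⟨-, h1, -⟩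
        rw [hA] at h1
        exact h1 h0
      rw [this]; simp
    · have hb := volume_box (Matrix.of (j.insertNth (e m) r : Fin (n + 1) → (Fin (n + 1) → ℝ)))
        h0 j η hη
      rw [Fintype.card_fin] at hb
      refine (measure_mono ?_).trans hb
      rintro y ⟨-, -, h2, h3⟩
      rw [hA] at h2 h3
      simp only [Fin.insertNth_apply_same] at h2 h3
      exact ⟨h2, h3⟩
  calc volume {x : Fin (n + 1) → (Fin (n + 1) → ℝ) | (∀ i, x i ∈ S) ∧ |(Matrix.of x).det| < η}
      ≤ volume ((⋃ j, ⋃ m, T j m) ∪ {x | (Matrix.of x).det = 0}) := measure_mono hcover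
    _ ≤ volume (⋃ j, ⋃ m, T j m) + volume {x : Fin (n + 1) → (Fin (n + 1) → ℝ) |
        (Matrix.of x).det = 0} := measure_union_le _ _
    _ = volume (⋃ j, ⋃ m, T j m) := by rw [det_null, add_zero]
    _ ≤ ∑ j, ∑ m, volume (T j m) := by
        refine (measure_iUnion_fintype_le _ _).trans ?_
        exact Finset.sum_le_sum fun j _ => measure_iUnion_fintype_le _ _
    _ ≤ ∑ j : Fin (n + 1), ∑ m : Fin (n + 1), ENNReal.ofReal (2 ^ (n + 1) * η) :=
        Finset.sum_le_sum fun j _ => Finset.sum_le_sum fun m _ => hTb j m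
    _ = ENNReal.ofReal ((n + 1) ^ 2 * (2 ^ (n + 1) * η)) := by
        simp only [Finset.sum_const, Finset.card_univ, Fintype.card_fin, nsmul_eq_mul]
        have h1 : ENNReal.ofReal ((n : ℝ) + 1) = ((n + 1 : ℕ) : ENNReal) := by
          rw [← ENNReal.ofReal_natCast]; push_cast; rfl
        rw [show ((n : ℝ) + 1) ^ 2 * (2 ^ (n + 1) * η) = (n + 1) * ((n + 1) * (2 ^ (n + 1) * η)) by ring,
          ENNReal.ofReal_mul (p := (n : ℝ) + 1) (by positivity),
          ENNReal.ofReal_mul (p := (n : ℝ) + 1) (by positivity), h1]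

end Pool.Agent.H894R3.SmallBall
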