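import Mathlib
import Pool.Agent.H894R3.Chain
import Pool.Agent.H894R3.Box
import Pool.Agent.H894R3.SmallBall

namespace Pool.Agent.H894R3.Pre

open MeasureTheory Set
open scoped ENNReal
open Pool.Agent.H894R3.Chain (shift cst chain fub shift_cons continuous_shift cst_pos ind_le)

/-- the slice volumes -/
noncomputable def G (d k : ℕ) (S : Set (Fin d → ℝ)) (E : Set (Fin (k + 2) → (Fin d → ℝ)))
    (u : Fin d → ℝ) : ENNReal :=
  volume {x : Fin (k + 2) → (Fin d → ℝ) | (∀ i, x i ∈ S) ∧ x + Pi.single 1 u ∈ E}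

theorem hadd (d k : ℕ) : Measurable fun p : (Fin d → ℝ) × (Fin (k + 2) → (Fin d → ℝ)) =>
    p.2 + Pi.single 1 p.1 := by
  refine measurable_snd.add ?_
  refine measurable_pi_lambda _ fun i => ?_
  by_cases hi : i = 1
  · subst hi; simp; exact measurable_fst
  · simpa [hi] using measurable_const

theorem pi_eq (d k : ℕ) (S : Set (Fin d → ℝ)) :
    {x : Fin k → (Fin d → ℝ) | ∀ i, x i ∈ S} = Set.pi univ fun _ => S := by
  ext x; simp

theorem G_meas (d k : ℕ) (S : Set (Fin d → ℝ)) (hS : MeasurableSet S)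
    (E : Set (Fin (k + 2) → (Fin d → ℝ))) (hE : MeasurableSet E) : Measurable (G d k S E) := by
  have h : MeasurableSet {p : (Fin d → ℝ) × (Fin (k + 2) → (Fin d → ℝ)) |
      (∀ i, p.2 i ∈ S) ∧ p.2 + Pi.single 1 p.1 ∈ E} := by
    have h1 : MeasurableSet {x : Fin (k + 2) → (Fin d → ℝ) | ∀ i, x i ∈ S} := by
      rw [pi_eq]; exact MeasurableSet.univ_pi fun _ => hS
    exact (measurable_snd h1).inter (hadd d k hE)
  exact measurable_measure_prodMk_left h

theorem G_le (d k : ℕ) (S : Set (Fin d → ℝ)) (hS1 : volume S ≤ 1)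
    (E : Set (Fin (k + 2) → (Fin d → ℝ))) (u : Fin d → ℝ) : G d k S E u ≤ 1 := by
  refine (measure_mono (t := Set.pi univ fun _ => S) ?_).trans ?_
  · rintro x ⟨h1, _⟩ i _
    exact h1 i
  · rw [volume_pi_pi]
    exact Finset.prod_le_one (fun _ _ => by simp) (fun _ _ => hS1)

/-- the triple version of a set of tuples -/
def tri (d k : ℕ) (E : Set (Fin (k + 2) → (Fin d → ℝ))) :
    Set ((Fin d → ℝ) × (Fin d → ℝ) × (Fin k → (Fin d → ℝ))) :=
  {p | (Fin.cons p.1 (Fin.cons p.2.1 p.2.2 : Fin (k + 1) → (Fin d → ℝ)) :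
    Fin (k + 2) → (Fin d → ℝ)) ∈ E}

theorem cons_meas (d k : ℕ) : Measurable
    fun p : (Fin d → ℝ) × (Fin d → ℝ) × (Fin k → (Fin d → ℝ)) =>
      (Fin.cons p.1 (Fin.cons p.2.1 p.2.2 : Fin (k + 1) → (Fin d → ℝ)) :
        Fin (k + 2) → (Fin d → ℝ)) := by
  refine measurable_pi_lambda _ fun i => ?_
  refine Fin.cases ?_ (fun i => ?_) i
  · simpa using measurable_fst
  · refine Fin.cases ?_ (fun i => ?_) i
    · simp only [Fin.cons_succ, Fin.cons_zero]
      exact measurable_fst.comp measurable_snd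
    · simp only [Fin.cons_succ]
      exact (measurable_pi_apply i).comp (measurable_snd.comp measurable_snd)

theorem tri_meas (d k : ℕ) (E : Set (Fin (k + 2) → (Fin d → ℝ))) (hE : MeasurableSet E) :
    MeasurableSet (tri d k E) := cons_meas d k hE

theorem G_eq (d k : ℕ) (S : Set (Fin d → ℝ)) (hS : MeasurableSet S)
    (E : Set (Fin (k + 2) → (Fin d → ℝ))) (hE : MeasurableSet E) (u : Fin d → ℝ) :
    G d k S E u = ∫⁻ w in S, ∫⁻ y1 in S, ∫⁻ r in Set.pi univ (fun _ : Fin k => S),
      (tri d k E).indicator (fun _ => 1) (w, y1 + u, r) := by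
  have hm : MeasurableSet {x : Fin (k + 2) → (Fin d → ℝ) | x + Pi.single 1 u ∈ E} :=
    ((hadd d k).comp (measurable_const.prodMk measurable_id)) hE
  have h1 : G d k S E u = ∫⁻ x in Set.pi univ (fun _ : Fin (k + 2) => S),
      {x : Fin (k + 2) → (Fin d → ℝ) | x + Pi.single 1 u ∈ E}.indicator (fun _ => (1 : ENNReal)) x := by
    rw [lintegral_indicator hm, setLIntegral_const, one_mul, Measure.restrict_apply hm, inter_comm]
    unfold G
    congr 1
    ext x
    simp
  rw [h1, fub (k + 1) S hS _ (measurable_const.indicator hm)]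
  apply lintegral_congr
  intro w
  rw [fub k S hS _ ?_]
  · apply lintegral_congr
    intro y1
    apply lintegral_congr
    intro r
    have h2 : (Fin.cons w (Fin.cons y1 r : Fin (k + 1) → (Fin d → ℝ)) : Fin (k + 2) → (Fin d → ℝ)) +
        Pi.single 1 u = Fin.cons w (Fin.cons (y1 + u) r : Fin (k + 1) → (Fin d → ℝ)) := by
      funext i
      refine Fin.cases ?_ (fun i => ?_) i
      · simp
      · refine Fin.cases ?_ (fun i => ?_) i
        · simp
        · simp only [Pi.add_apply, Fin.cons_succ]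
          rw [Pi.single_eq_of_ne, add_zero]
          rw [← Fin.succ_zero_eq_one]
          intro h
          exact absurd (Fin.succ_injective _ h) (Fin.succ_ne_zero i)
    by_cases h : (Fin.cons w (Fin.cons (y1 + u) r : Fin (k + 1) → (Fin d → ℝ)) :
        Fin (k + 2) → (Fin d → ℝ)) ∈ E
    · rw [indicator_of_mem, indicator_of_mem]
      · exact h
      · show _ ∈ E
        rw [h2]; exact h
    · rw [indicator_of_notMem, indicator_of_notMem]
      · exact h
      · show ¬ _ ∈ E
        rw [h2]; exact h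
  · have hc : Measurable fun z : Fin (k + 1) → (Fin d → ℝ) => (Fin.cons w z : Fin (k + 2) → (Fin d → ℝ)) := by
      refine measurable_pi_lambda _ fun i => ?_
      refine Fin.cases ?_ (fun i => ?_) i
      · simpa using measurable_const
      · simpa using measurable_pi_apply i
    exact (measurable_const.indicator hm).comp hc

theorem vol_eq (d k : ℕ) (E : Set (Fin (k + 2) → (Fin d → ℝ))) (hE : MeasurableSet E) :
    volume E = ∫⁻ r, ∫⁻ y0, ∫⁻ y1, (tri d k E).indicator (fun _ => 1) (y0, y1, r) := by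
  have h1 : volume E = G d k univ E 0 := by
    unfold G
    congr 1
    ext x
    simp
  rw [h1, G_eq d k univ MeasurableSet.univ E hE 0]
  simp only [Measure.restrict_univ, Set.pi_univ, add_zero]
  have hm := tri_meas d k E hE
  have m3 : Measurable fun p : (Fin d → ℝ) × (Fin d → ℝ) × (Fin k → (Fin d → ℝ)) =>
      (tri d k E).indicator (fun _ => (1 : ENNReal)) p := measurable_const.indicator hm
  calc ∫⁻ w, ∫⁻ y1, ∫⁻ r, (tri d k E).indicator (fun _ => (1 : ENNReal)) (w, y1, r)
      = ∫⁻ w, ∫⁻ r, ∫⁻ y1, (tri d k E).indicator (fun _ => (1 : ENNReal)) (w, y1, r) := by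
        apply lintegral_congr
        intro w
        rw [lintegral_lintegral_swap]
        have : Measurable fun q : (Fin d → ℝ) × (Fin k → (Fin d → ℝ)) => (w, q.1, q.2) := by fun_prop
        exact (m3.comp this).aemeasurable
    _ = _ := by
        rw [lintegral_lintegral_swap]
        have : Measurable fun q : ((Fin d → ℝ) × (Fin k → (Fin d → ℝ))) × (Fin d → ℝ) =>
          (q.1.1, q.2, q.1.2) := by fun_prop
        exact (m3.comp this).lintegral_prod_right'.aemeasurable

theorem swap_all (d k M : ℕ) (S : Set (Fin d → ℝ)) (hS : MeasurableSet S)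
    (E : Set (Fin (k + 2) → (Fin d → ℝ))) (hE : MeasurableSet E) (μ : Fin M → ℝ) :
    ∫⁻ r in Set.pi univ (fun _ : Fin k => S), ∫⁻ y1 in S,
      ∫⁻ z in Set.pi univ (fun _ : Fin (M + 1) => S),
        ∫⁻ w in S, (tri d k E).indicator (fun _ => 1) (w, y1 + shift z μ, r) =
    ∫⁻ z in Set.pi univ (fun _ : Fin (M + 1) => S), G d k S E (shift z μ) := by
  have hm := tri_meas d k E hE
  have m3 : Measurable fun p : (Fin d → ℝ) × (Fin d → ℝ) × (Fin k → (Fin d → ℝ)) =>
      (tri d k E).indicator (fun _ => (1 : ENNReal)) p := measurable_const.indicator hm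
  have hsh : Measurable fun z : Fin (M + 1) → (Fin d → ℝ) => shift z μ :=
    (continuous_shift.comp (continuous_id.prodMk continuous_const)).measurable
  have mH : Measurable fun q : (Fin d → ℝ) × (Fin k → (Fin d → ℝ)) =>
      ∫⁻ w in S, (tri d k E).indicator (fun _ => (1 : ENNReal)) (w, q.1, q.2) := by
    have : Measurable fun q : ((Fin d → ℝ) × (Fin k → (Fin d → ℝ))) × (Fin d → ℝ) =>
      (q.2, q.1.1, q.1.2) := by fun_prop
    exact (m3.comp this).lintegral_prod_right'
  have mQ : Measurable fun q : ((Fin k → (Fin d → ℝ)) × (Fin d → ℝ)) × (Fin (M + 1) → (Fin d → ℝ)) =>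
      ∫⁻ w in S, (tri d k E).indicator (fun _ => (1 : ENNReal)) (w, q.1.2 + shift q.2 μ, q.1.1) := by
    have : Measurable fun q : ((Fin k → (Fin d → ℝ)) × (Fin d → ℝ)) × (Fin (M + 1) → (Fin d → ℝ)) =>
      (q.1.2 + shift q.2 μ, q.1.1) :=
      ((measurable_snd.comp measurable_fst).add (hsh.comp measurable_snd)).prodMk
        (measurable_fst.comp measurable_fst)
    exact mH.comp this
  calc _ = ∫⁻ r in Set.pi univ (fun _ : Fin k => S), ∫⁻ z in Set.pi univ (fun _ : Fin (M + 1) => S),
        ∫⁻ y1 in S, ∫⁻ w in S, (tri d k E).indicator (fun _ => 1) (w, y1 + shift z μ, r) := by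
        apply lintegral_congr
        intro r
        rw [lintegral_lintegral_swap]
        have : Measurable fun q : (Fin d → ℝ) × (Fin (M + 1) → (Fin d → ℝ)) => ((r, q.1), q.2) := by
          fun_prop
        exact (mQ.comp this).aemeasurable
    _ = ∫⁻ z in Set.pi univ (fun _ : Fin (M + 1) => S), ∫⁻ r in Set.pi univ (fun _ : Fin k => S),
        ∫⁻ y1 in S, ∫⁻ w in S, (tri d k E).indicator (fun _ => 1) (w, y1 + shift z μ, r) := by
        rw [lintegral_lintegral_swap]
        have : Measurable fun q : ((Fin k → (Fin d → ℝ)) × (Fin (M + 1) → (Fin d → ℝ))) × (Fin d → ℝ) =>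
          ((q.1.1, q.2), q.1.2) := by fun_prop
        exact (mQ.comp this).lintegral_prod_right'.aemeasurable
    _ = _ := by
        apply lintegral_congr
        intro z
        rw [G_eq d k S hS E hE]
        symm
        have e1 : ∀ w, ∫⁻ y1 in S, ∫⁻ r in Set.pi univ (fun _ : Fin k => S),
            (tri d k E).indicator (fun _ => (1 : ENNReal)) (w, y1 + shift z μ, r) =
            ∫⁻ r in Set.pi univ (fun _ : Fin k => S), ∫⁻ y1 in S,
            (tri d k E).indicator (fun _ => (1 : ENNReal)) (w, y1 + shift z μ, r) := by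
          intro w
          rw [lintegral_lintegral_swap]
          have : Measurable fun q : (Fin d → ℝ) × (Fin k → (Fin d → ℝ)) =>
            (w, q.1 + shift z μ, q.2) := by fun_prop
          exact (m3.comp this).aemeasurable
        simp_rw [e1]
        rw [lintegral_lintegral_swap]
        · apply lintegral_congr
          intro r
          rw [lintegral_lintegral_swap]
          have : Measurable fun q : (Fin d → ℝ) × (Fin d → ℝ) =>
            (q.1, q.2 + shift z μ, r) := by fun_prop
          exact (m3.comp this).aemeasurable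
        · have : Measurable fun q : ((Fin d → ℝ) × (Fin k → (Fin d → ℝ))) × (Fin d → ℝ) =>
            (q.1.1, q.2 + shift z μ, q.1.2) := by fun_prop
          exact (m3.comp this).lintegral_prod_right'.aemeasurable


/-- the matrix of differences -/
def vm {d : ℕ} (z : Fin (d + 1) → (Fin d → ℝ)) : Matrix (Fin d) (Fin d) ℝ :=
  Matrix.of fun i => z i.castSucc - z i.succ

theorem vm_det {n : ℕ} (z0 : Fin (n + 1) → ℝ) (z : Fin (n + 1) → (Fin (n + 1) → ℝ)) :
    |(vm (Fin.cons z0 z : Fin (n + 2) → (Fin (n + 1) → ℝ))).det| =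
      |(Matrix.of fun i => z i - z0).det| := by
  let U : Matrix (Fin (n + 1)) (Fin (n + 1)) ℝ := Matrix.of fun i j =>
    if i = j then -1 else if j.succ = i.castSucc then 1 else 0
  have hU : vm (Fin.cons z0 z : Fin (n + 2) → (Fin (n + 1) → ℝ)) = U * Matrix.of fun i => z i - z0 := by
    ext i q
    simp only [vm, Matrix.of_apply, Matrix.mul_apply, U, Pi.sub_apply, Fin.cons_succ]
    have h1 : ∀ j : Fin (n + 1), (if i = j then (-1 : ℝ) else if j.succ = i.castSucc then 1 else 0) *
        (z j q - z0 q) = (if i = j then -(z j q - z0 q) else 0) +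
          (if j.succ = i.castSucc then (z j q - z0 q) else 0) := by
      intro j
      by_cases h : i = j
      · subst h
        have : ¬ (i.succ = i.castSucc) := by
          intro h
          have := congrArg Fin.val h
          simp at this
        simp [this]
      · simp [h]
    simp_rw [h1]
    rw [Finset.sum_add_distrib, Finset.sum_ite_eq]
    simp only [Finset.mem_univ, if_true]
    refine Fin.cases ?_ (fun i' => ?_) i
    · have : ∀ j : Fin (n + 1), ¬ (j.succ = (0 : Fin (n + 1)).castSucc) := by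
        intro j h
        have := congrArg Fin.val h
        simp at this
      simp [this]
    · have h2 : ∀ j : Fin (n + 1), (j.succ = (i'.succ : Fin (n + 1)).castSucc) ↔ j = i'.castSucc := by
        intro j
        constructor
        · intro h
          apply Fin.ext
          have := congrArg Fin.val h
          simpa using this
        · rintro rfl
          apply Fin.ext
          simp
      simp_rw [h2]
      rw [Finset.sum_ite_eq']
      simp only [Finset.mem_univ, if_true]
      rw [show (Fin.castSucc (i'.succ) : Fin (n + 2)) = (i'.castSucc).succ from rfl, Fin.cons_succ]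
      ring
  have hUd : |U.det| = 1 := by
    rw [Matrix.det_of_lowerTriangular]
    · simp [U]
    · intro i j hij
      simp only [U, Matrix.of_apply]
      have hlt : i < j := hij
      rw [if_neg (ne_of_lt hlt), if_neg]
      intro h
      have := congrArg Fin.val h
      simp only [Fin.val_succ, Fin.val_castSucc] at this
      have h2 : (i : ℕ) < j := hlt
      omega
  rw [hU, Matrix.det_mul, abs_mul, hUd, one_mul]

theorem vm_cont {n : ℕ} : Continuous fun z : Fin (n + 2) → (Fin (n + 1) → ℝ) => (vm z).det := by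
  refine Continuous.matrix_det ?_
  refine continuous_pi fun i => continuous_pi fun j => ?_
  simp only [vm, Matrix.of_apply, Pi.sub_apply]
  fun_prop

theorem bad_le (n : ℕ) (S : Set (Fin (n + 1) → ℝ)) (hS : MeasurableSet S) (hS1 : volume S ≤ 1)
    (η : ℝ) (hη : 0 ≤ η) :
    ∫⁻ z in Set.pi univ (fun _ : Fin (n + 2) => S),
      {z : Fin (n + 2) → (Fin (n + 1) → ℝ) | |(vm z).det| < η}.indicator (fun _ => (1 : ENNReal)) z ≤
      ENNReal.ofReal ((n + 1) ^ 2 * (2 ^ (n + 1) * η)) := by
  have hBm : MeasurableSet {z : Fin (n + 2) → (Fin (n + 1) → ℝ) | |(vm z).det| < η} :=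
    (isOpen_lt vm_cont.abs continuous_const).measurableSet
  rw [fub (n + 1) S hS _ (measurable_const.indicator hBm)]
  have hin : ∀ z0 : Fin (n + 1) → ℝ, ∫⁻ z in Set.pi univ (fun _ : Fin (n + 1) => S),
      {z : Fin (n + 2) → (Fin (n + 1) → ℝ) | |(vm z).det| < η}.indicator (fun _ => (1 : ENNReal))
        (Fin.cons z0 z) ≤ ENNReal.ofReal ((n + 1) ^ 2 * (2 ^ (n + 1) * η)) := by
    intro z0
    let S' : Set (Fin (n + 1) → ℝ) := (fun x => x + z0) ⁻¹' S
    have hS' : MeasurableSet S' := hS.preimage (measurable_add_const _)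
    have hS'1 : volume S' ≤ 1 := by
      rw [show volume S' = volume S from measure_preimage_add_right _ _ _]
      exact hS1
    have hsb := SmallBall.small_ball n S' hS' hS'1 η hη
    have hm2 : MeasurableSet {z : Fin (n + 1) → (Fin (n + 1) → ℝ) |
        |(Matrix.of fun i => z i - z0).det| < η} := by
      refine (isOpen_lt ?_ continuous_const).measurableSet
      refine (Continuous.matrix_det ?_).abs
      refine continuous_pi fun i => continuous_pi fun j => ?_
      simp only [Matrix.of_apply, Pi.sub_apply]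
      fun_prop
    calc _ = ∫⁻ z in Set.pi univ (fun _ : Fin (n + 1) => S),
        {z : Fin (n + 1) → (Fin (n + 1) → ℝ) |
        |(Matrix.of fun i => z i - z0).det| < η}.indicator (fun _ => (1 : ENNReal)) z := by
          apply lintegral_congr
          intro z
          by_cases h : |(Matrix.of fun i => z i - z0).det| < η
          · rw [indicator_of_mem (by show |(vm _).det| < η; rw [vm_det]; exact h),
              indicator_of_mem (by exact h)]
          · rw [indicator_of_notMem (by show ¬ |(vm _).det| < η; rw [vm_det]; exact h),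
              indicator_of_notMem (by exact h)]
      _ = volume ((Set.pi univ (fun _ : Fin (n + 1) => S)) ∩ {z : Fin (n + 1) → (Fin (n + 1) → ℝ) |
        |(Matrix.of fun i => z i - z0).det| < η}) := by
          rw [lintegral_indicator hm2, setLIntegral_const, one_mul, Measure.restrict_apply hm2, inter_comm]
      _ = volume ((fun x : Fin (n + 1) → (Fin (n + 1) → ℝ) => x + fun _ => z0) ⁻¹'
          ((Set.pi univ (fun _ : Fin (n + 1) => S)) ∩ {z : Fin (n + 1) → (Fin (n + 1) → ℝ) |
        |(Matrix.of fun i => z i - z0).det| < η})) :=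
          (measure_preimage_add_right _ _ _).symm
      _ ≤ volume {x : Fin (n + 1) → (Fin (n + 1) → ℝ) | (∀ i, x i ∈ S') ∧ |(Matrix.of x).det| < η} := by
          apply measure_mono
          rintro x ⟨h1, h2⟩
          refine ⟨fun i => h1 i (mem_univ i), ?_⟩
          have h3 : |(Matrix.of fun i => (x i + z0) - z0).det| < η := h2
          simpa using h3
      _ ≤ _ := hsb
  calc _ ≤ ∫⁻ z0 in S, ENNReal.ofReal ((n + 1) ^ 2 * (2 ^ (n + 1) * η)) :=
        lintegral_mono hin
    _ = ENNReal.ofReal ((n + 1) ^ 2 * (2 ^ (n + 1) * η)) * volume S := setLIntegral_const _ _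
    _ ≤ ENNReal.ofReal ((n + 1) ^ 2 * (2 ^ (n + 1) * η)) * 1 := by gcongr
    _ = _ := mul_one _


theorem shift_eq {d : ℕ} (z : Fin (d + 1) → (Fin d → ℝ)) (μ : Fin d → ℝ) :
    shift z μ = Matrix.toLin' (vm z).transpose μ := by
  funext q
  simp [shift, vm, Matrix.mulVec, dotProduct, mul_comm]

theorem select (n k : ℕ) (ε : ℝ) (hε : 0 < ε) : ∃ c η : ℝ, 0 < c ∧ 0 < η ∧
    ∀ S : Set (Fin (n + 1) → ℝ), MeasurableSet S → volume S ≤ 1 →
      ∀ E : Set (Fin (k + 2) → (Fin (n + 1) → ℝ)), MeasurableSet E →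
      (∀ x ∈ E, convexHull ℝ (range x) ⊆ S) → ENNReal.ofReal ε ≤ volume E →
      ∃ T : (Fin (n + 1) → ℝ) →ₗ[ℝ] (Fin (n + 1) → ℝ), η ≤ |LinearMap.det T| ∧
        ENNReal.ofReal c ≤ ∫⁻ μ in Icc (0 : Fin (n + 1) → ℝ) 1, G (n + 1) k S E (T μ) := by
  set c0 : ℝ := cst (n + 1) ε (n + 1) with hc0
  have hc0pos : 0 < c0 := cst_pos _ hε _
  set η : ℝ := c0 / (4 * ((n + 1) ^ 2 * 2 ^ (n + 1))) with hη
  have hη0 : 0 < η := by positivity
  refine ⟨c0 / 2, η, by positivity, hη0, ?_⟩
  intro S hS hS1 E hE hhull hEε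
  have hSi : ∀ x ∈ E, ∀ i, x i ∈ S := fun x hx i =>
    hhull x hx (subset_convexHull ℝ _ (mem_range_self i))
  have hch : ∀ μ : Fin (n + 1) → ℝ, μ ∈ Icc (0 : Fin (n + 1) → ℝ) 1 → ENNReal.ofReal c0 ≤
      ∫⁻ z in Set.pi univ (fun _ : Fin (n + 2) => S), G (n + 1) k S E (shift z μ) := by
    intro μ hμ
    have h := chain S hS hS1 (tri (n + 1) k E) (tri_meas _ _ E hE) (volume : Measure
      (Fin k → (Fin (n + 1) → ℝ))) (Set.pi univ fun _ => S) (MeasurableSet.univ_pi fun _ => hS)
      (by rw [volume_pi_pi]; exact Finset.prod_le_one (fun _ _ => by simp) (fun _ _ => hS1))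
      (by
        intro y0 y1 r hy
        have h1 := hSi _ hy
        refine ⟨by simpa using h1 0, by simpa using h1 1, fun i _ => ?_⟩
        have := h1 i.succ.succ
        simpa using this)
      (by
        intro y0 y1 r hy t ht0 ht1
        apply hhull _ hy
        have e0 : y0 ∈ convexHull ℝ (range (Fin.cons y0 (Fin.cons y1 r :
            Fin (k + 1) → (Fin (n + 1) → ℝ)) : Fin (k + 2) → (Fin (n + 1) → ℝ))) := by
          apply subset_convexHull
          exact ⟨0, by simp⟩
        have e1 : y1 ∈ convexHull ℝ (range (Fin.cons y0 (Fin.cons y1 r :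
            Fin (k + 1) → (Fin (n + 1) → ℝ)) : Fin (k + 2) → (Fin (n + 1) → ℝ))) := by
          apply subset_convexHull
          exact ⟨1, by simp⟩
        have ht : (0 : ℝ) < 1 + t := by linarith
        have hcv := (convex_convexHull ℝ (range (Fin.cons y0 (Fin.cons y1 r :
            Fin (k + 1) → (Fin (n + 1) → ℝ)) : Fin (k + 2) → (Fin (n + 1) → ℝ)))) e1 e0
          (a := (1 + t)⁻¹) (b := (1 + t)⁻¹ * t) (by positivity) (by positivity) (by field_simp)
        rw [smul_add, smul_smul]
        exact hcv)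
      ε hε.le (by rw [← vol_eq _ _ E hE]; exact hEε) (n + 1) μ (fun i => ⟨hμ.1 i, hμ.2 i⟩)
    rw [Module.finrank_fin_fun] at h
    rw [swap_all _ _ _ S hS E hE μ] at h
    exact h
  have hGm := G_meas (n + 1) k S hS E hE
  have hjoint : Measurable fun q : (Fin (n + 1) → ℝ) × (Fin (n + 2) → (Fin (n + 1) → ℝ)) =>
      G (n + 1) k S E (shift q.2 q.1) :=
    hGm.comp (continuous_shift.comp (continuous_snd.prodMk continuous_fst)).measurable
  let Φ : (Fin (n + 2) → (Fin (n + 1) → ℝ)) → ENNReal := fun z =>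
    ∫⁻ μ in Icc (0 : Fin (n + 1) → ℝ) 1, G (n + 1) k S E (shift z μ)
  have hΦtot : ENNReal.ofReal c0 ≤ ∫⁻ z in Set.pi univ (fun _ : Fin (n + 2) => S), Φ z := by
    calc ENNReal.ofReal c0 = ∫⁻ μ in Icc (0 : Fin (n + 1) → ℝ) 1, ENNReal.ofReal c0 := by
          rw [setLIntegral_const, Box.vol_cube, mul_one]
      _ ≤ ∫⁻ μ in Icc (0 : Fin (n + 1) → ℝ) 1,
          ∫⁻ z in Set.pi univ (fun _ : Fin (n + 2) => S), G (n + 1) k S E (shift z μ) :=
          setLIntegral_mono' measurableSet_Icc hch
      _ = _ := by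
          rw [lintegral_lintegral_swap]
          exact hjoint.aemeasurable
  have hΦ1 : ∀ z, Φ z ≤ 1 := by
    intro z
    calc Φ z ≤ ∫⁻ μ in Icc (0 : Fin (n + 1) → ℝ) 1, 1 := lintegral_mono fun μ => G_le _ _ S hS1 E _
      _ = 1 := by rw [setLIntegral_const, Box.vol_cube, mul_one]
  have hSSv : volume (Set.pi univ (fun _ : Fin (n + 2) => S)) ≤ 1 := by
    rw [volume_pi_pi]
    exact Finset.prod_le_one (fun _ _ => by simp) (fun _ _ => hS1)
  have hex : ∃ z : Fin (n + 2) → (Fin (n + 1) → ℝ), η ≤ |(vm z).det| ∧ ENNReal.ofReal (c0 / 2) ≤ Φ z := by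
    by_contra hcon
    push Not at hcon
    have hpt : ∀ z, Φ z ≤ {z : Fin (n + 2) → (Fin (n + 1) → ℝ) | |(vm z).det| < η}.indicator
        (fun _ => (1 : ENNReal)) z + ENNReal.ofReal (c0 / 2) := by
      intro z
      by_cases hz : |(vm z).det| < η
      · rw [indicator_of_mem (by exact hz)]
        exact (hΦ1 z).trans le_self_add
      · rw [indicator_of_notMem (by exact hz), zero_add]
        exact (hcon z (not_lt.1 hz)).le
    have hBm : MeasurableSet {z : Fin (n + 2) → (Fin (n + 1) → ℝ) | |(vm z).det| < η} :=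
      (isOpen_lt vm_cont.abs continuous_const).measurableSet
    have hfin : ENNReal.ofReal c0 ≤ ENNReal.ofReal (c0 / 4) + ENNReal.ofReal (c0 / 2) := by
      calc ENNReal.ofReal c0 ≤ ∫⁻ z in Set.pi univ (fun _ : Fin (n + 2) => S), Φ z := hΦtot
        _ ≤ ∫⁻ z in Set.pi univ (fun _ : Fin (n + 2) => S),
            ({z : Fin (n + 2) → (Fin (n + 1) → ℝ) | |(vm z).det| < η}.indicator
              (fun _ => (1 : ENNReal)) z + ENNReal.ofReal (c0 / 2)) := lintegral_mono hpt
        _ = (∫⁻ z in Set.pi univ (fun _ : Fin (n + 2) => S),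
            {z : Fin (n + 2) → (Fin (n + 1) → ℝ) | |(vm z).det| < η}.indicator
              (fun _ => (1 : ENNReal)) z) + ENNReal.ofReal (c0 / 2) *
              volume (Set.pi univ (fun _ : Fin (n + 2) => S)) := by
            rw [lintegral_add_left (measurable_const.indicator hBm), setLIntegral_const]
        _ ≤ ENNReal.ofReal ((n + 1) ^ 2 * (2 ^ (n + 1) * η)) + ENNReal.ofReal (c0 / 2) * 1 := by
            refine add_le_add (bad_le n S hS hS1 η hη0.le) ?_
            gcongr
        _ = _ := by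
            rw [mul_one]
            congr 2
            rw [hη]; field_simp
    rw [← ENNReal.ofReal_add (by positivity) (by positivity),
      ENNReal.ofReal_le_ofReal_iff (by positivity)] at hfin
    linarith
  obtain ⟨z, hz1, hz2⟩ := hex
  refine ⟨Matrix.toLin' (vm z).transpose, ?_, ?_⟩
  · rw [LinearMap.det_toLin', Matrix.det_transpose]
    exact hz1
  · simp_rw [← shift_eq]
    exact hz2


theorem pre (n k : ℕ) (ε : ℝ) (hε : 0 < ε) : ∃ η R κ : ℝ, 0 < η ∧ 0 < κ ∧
    ∀ S : Set (Fin (n + 1) → ℝ), MeasurableSet S → volume S ≤ 1 →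
      ∀ E : Set (Fin (k + 2) → (Fin (n + 1) → ℝ)), MeasurableSet E →
      (∀ x ∈ E, convexHull ℝ (range x) ⊆ S) → ENNReal.ofReal ε ≤ volume E →
      ∃ (T : (Fin (n + 1) → ℝ) →ₗ[ℝ] (Fin (n + 1) → ℝ)) (a : Fin (n + 1) → ℝ), η ≤ |LinearMap.det T| ∧
        ENNReal.ofReal κ ≤ volume ({ν : Fin (k + 2) → (Fin (n + 1) → ℝ) | (fun i => T (ν i + a)) ∈ E} ∩
          Metric.closedBall 0 R) := by
  obtain ⟨c, η, hc, hη, hsel⟩ := select n k ε hε
  obtain ⟨K, κ, hK, hκ, hbox⟩ := Box.local_box (n + 1) k (c ^ (k + 3)) (1 / η) (by positivity)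
    (by positivity)
  refine ⟨η, K, κ, hη, hκ, ?_⟩
  intro S hS hS1 E hE hhull hEε
  obtain ⟨T, hTη, hTc⟩ := hsel S hS hS1 E hE hhull hEε
  have hD : 0 < |LinearMap.det T| := hη.trans_le hTη
  have hdet : LinearMap.det T ≠ 0 := abs_pos.1 hD
  have hTcont : Continuous T := T.continuous_of_finiteDimensional
  let TT : (Fin (k + 2) → (Fin (n + 1) → ℝ)) →ₗ[ℝ] (Fin (k + 2) → (Fin (n + 1) → ℝ)) :=
    LinearMap.pi (fun i => T.comp (LinearMap.proj i))
  have hTTa : ∀ x i, TT x i = T (x i) := fun x i => rfl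
  have hTTdet : LinearMap.det TT = (LinearMap.det T) ^ (k + 2) := by
    simp only [TT]
    rw [LinearMap.det_pi]
    simp
  have hTT0 : LinearMap.det TT ≠ 0 := by rw [hTTdet]; exact pow_ne_zero _ hdet
  have hTTcont : Continuous TT := TT.continuous_of_finiteDimensional
  -- the determinant is bounded
  have hbound : c ≤ |LinearMap.det T|⁻¹ := by
    let P : Set ((Fin (n + 1) → ℝ) × (Fin (k + 2) → (Fin (n + 1) → ℝ))) :=
      {p | p.1 ∈ Icc (0 : Fin (n + 1) → ℝ) 1 ∧ (∀ i, p.2 i ∈ S) ∧ p.2 + Pi.single 1 (T p.1) ∈ E}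
    have hSS : MeasurableSet {x : Fin (k + 2) → (Fin (n + 1) → ℝ) | ∀ i, x i ∈ S} := by
      rw [pi_eq]; exact MeasurableSet.univ_pi fun _ => hS
    have hSSv : volume {x : Fin (k + 2) → (Fin (n + 1) → ℝ) | ∀ i, x i ∈ S} ≤ 1 := by
      rw [pi_eq, volume_pi_pi]
      exact Finset.prod_le_one (fun _ _ => by simp) (fun _ _ => hS1)
    have hP : MeasurableSet P := by
      have h1 : Measurable fun p : (Fin (n + 1) → ℝ) × (Fin (k + 2) → (Fin (n + 1) → ℝ)) =>
          (T p.1, p.2) := (hTcont.measurable.comp measurable_fst).prodMk measurable_snd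
      exact (measurable_fst measurableSet_Icc).inter
        ((measurable_snd hSS).inter (((hadd (n + 1) k).comp h1) hE))
    have h1 : ENNReal.ofReal c ≤ volume P := by
      refine hTc.trans ?_
      rw [show (volume : Measure ((Fin (n + 1) → ℝ) × (Fin (k + 2) → (Fin (n + 1) → ℝ)))) =
        (volume : Measure (Fin (n + 1) → ℝ)).prod volume from rfl, Measure.prod_apply hP,
        ← lintegral_indicator measurableSet_Icc]
      apply lintegral_mono
      intro μ
      by_cases hμ : μ ∈ Icc (0 : Fin (n + 1) → ℝ) 1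
      · rw [indicator_of_mem hμ]
        apply measure_mono
        rintro x ⟨h1, h2⟩
        exact ⟨hμ, h1, h2⟩
      · rw [indicator_of_notMem hμ]; simp
    have h2 : volume P ≤ ENNReal.ofReal (|LinearMap.det T|⁻¹) := by
      rw [show (volume : Measure ((Fin (n + 1) → ℝ) × (Fin (k + 2) → (Fin (n + 1) → ℝ)))) =
        (volume : Measure (Fin (n + 1) → ℝ)).prod volume from rfl, Measure.prod_apply_symm hP]
      calc ∫⁻ x, volume ((fun μ => (μ, x)) ⁻¹' P)
          ≤ ∫⁻ x, {x : Fin (k + 2) → (Fin (n + 1) → ℝ) | ∀ i, x i ∈ S}.indicator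
              (fun _ => ENNReal.ofReal (|LinearMap.det T|⁻¹)) x := by
            apply lintegral_mono
            intro x
            by_cases hx : ∀ i, x i ∈ S
            · rw [indicator_of_mem (by exact hx)]
              have h3 : (fun μ => (μ, x)) ⁻¹' P ⊆ T ⁻¹' ((fun y => x 1 + y) ⁻¹' S) := by
                rintro μ ⟨_, _, h5⟩
                have h6 := hhull _ h5 (subset_convexHull ℝ _ (mem_range_self 1))
                simpa using h6
              refine (measure_mono h3).trans ?_
              rw [Measure.addHaar_preimage_linearMap volume hdet, measure_preimage_add, abs_inv]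
              calc ENNReal.ofReal |LinearMap.det T|⁻¹ * volume S
                  ≤ ENNReal.ofReal |LinearMap.det T|⁻¹ * 1 := by gcongr
                _ = _ := mul_one _
            · rw [indicator_of_notMem (by exact hx)]
              have : (fun μ => (μ, x)) ⁻¹' P = ∅ := by
                rw [eq_empty_iff_forall_notMem]
                rintro μ ⟨_, h4, _⟩
                exact hx h4
              show volume ((fun μ => (μ, x)) ⁻¹' P) ≤ 0
              rw [this]; simp
        _ = ENNReal.ofReal (|LinearMap.det T|⁻¹) * volume {x : Fin (k + 2) → (Fin (n + 1) → ℝ) |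
              ∀ i, x i ∈ S} := by
            rw [lintegral_indicator hSS, setLIntegral_const]
        _ ≤ ENNReal.ofReal (|LinearMap.det T|⁻¹) * 1 := by gcongr
        _ = _ := mul_one _
    have h3 := h1.trans h2
    rwa [ENNReal.ofReal_le_ofReal_iff (by positivity)] at h3
  -- the transformed sets
  let S' : Set (Fin (n + 1) → ℝ) := T ⁻¹' S
  let E' : Set (Fin (k + 2) → (Fin (n + 1) → ℝ)) := TT ⁻¹' E
  have hS' : MeasurableSet S' := hTcont.measurable hS
  have hE' : MeasurableSet E' := hTTcont.measurable hE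
  have hS'v : volume S' ≤ ENNReal.ofReal (1 / η) := by
    simp only [S']
    rw [Measure.addHaar_preimage_linearMap volume hdet, abs_inv]
    calc ENNReal.ofReal |LinearMap.det T|⁻¹ * volume S ≤ ENNReal.ofReal (1 / η) * 1 := by
          gcongr
          rw [one_div]
          gcongr
      _ = _ := mul_one _
  have hhull' : ∀ x ∈ E', convexHull ℝ (range x) ⊆ S' := by
    intro x hx y hy
    show T y ∈ S
    apply hhull _ hx
    have h1 : range (TT x) = T '' (range x) := by
      rw [← range_comp]; rfl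
    rw [h1, ← LinearMap.image_convexHull]
    exact mem_image_of_mem _ hy
  have hG' : ∀ μ, volume {x : Fin (k + 2) → (Fin (n + 1) → ℝ) | (∀ i, x i ∈ S') ∧
      x + Pi.single 1 μ ∈ E'} = ENNReal.ofReal (|LinearMap.det T|⁻¹ ^ (k + 2)) * G (n + 1) k S E (T μ) := by
    intro μ
    have h1 : {x : Fin (k + 2) → (Fin (n + 1) → ℝ) | (∀ i, x i ∈ S') ∧ x + Pi.single 1 μ ∈ E'} =
        TT ⁻¹' {x : Fin (k + 2) → (Fin (n + 1) → ℝ) | (∀ i, x i ∈ S) ∧
          x + Pi.single 1 (T μ) ∈ E} := by
      ext x
      have h2 : TT (x + Pi.single 1 μ) = TT x + Pi.single 1 (T μ) := by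
        rw [map_add]
        congr 1
        funext i
        rw [hTTa]
        by_cases hi : i = 1
        · subst hi; simp
        · simp [hi]
      constructor
      · rintro ⟨h3, h4⟩
        refine ⟨fun i => h3 i, ?_⟩
        rw [← h2]; exact h4
      · rintro ⟨h3, h4⟩
        refine ⟨fun i => h3 i, ?_⟩
        show TT _ ∈ E
        rw [h2]; exact h4
    rw [h1, Measure.addHaar_preimage_linearMap volume hTT0, hTTdet, abs_inv, abs_pow, ← inv_pow]
    rfl
  have hint : ENNReal.ofReal (c ^ (k + 3)) ≤ ∫⁻ μ in Icc (0 : Fin (n + 1) → ℝ) 1,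
      volume {x : Fin (k + 2) → (Fin (n + 1) → ℝ) | (∀ i, x i ∈ S') ∧ x + Pi.single 1 μ ∈ E'} := by
    simp_rw [hG']
    rw [lintegral_const_mul' _ _ ENNReal.ofReal_ne_top]
    calc ENNReal.ofReal (c ^ (k + 3)) = ENNReal.ofReal (c ^ (k + 2)) * ENNReal.ofReal c := by
          rw [← ENNReal.ofReal_mul (by positivity), ← pow_succ]
      _ ≤ _ := by
          refine mul_le_mul' (ENNReal.ofReal_le_ofReal ?_) hTc
          gcongr
  obtain ⟨a, ha⟩ := hbox S' hS' hS'v E' hE' hhull' hint
  refine ⟨T, a, hTη, ha.trans ?_⟩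
  rw [← measure_preimage_add_right volume (fun _ => a : Fin (k + 2) → (Fin (n + 1) → ℝ))]
  apply measure_mono
  rintro ν ⟨h1, h2⟩
  refine ⟨?_, ?_⟩
  · have h3 : TT (ν + fun _ => a) ∈ E := h1
    exact h3
  · rw [Metric.mem_closedBall, dist_zero_right, pi_norm_le_iff_of_nonneg hK.le]
    intro i
    rw [pi_norm_le_iff_of_nonneg hK.le]
    intro l
    have h3 := h2 i
    have h4 := h3.1 l
    have h5 := h3.2 l
    simp only [Pi.add_apply, Pi.sub_apply] at h4 h5
    rw [Real.norm_eq_abs, abs_le]
    constructor <;> linarith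

end Pool.Agent.H894R3.Pre
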