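import Mathlib
import Pool.Agent.Helper868.DHJ

namespace Pool.Agent.H894R3.Szem

open MeasureTheory Set
open scoped ENNReal
open Pool.Agent.Helper868.DHJ (DensityHJ LineFree pt dens ind av density_hales_jewett)

theorem szem (α : Type) [Fintype α] [Nonempty α] {U : Type*} [NormedAddCommGroup U] [NormedSpace ℝ U]
    [FiniteDimensional ℝ U] [MeasureSpace U] [BorelSpace U] [(volume : Measure U).IsAddHaarMeasure]
    (w : α → U) (R κ : ℝ) (hκ : 0 < κ) :
    ∃ t0 : ℝ, 0 < t0 ∧ ∀ F : Set U, MeasurableSet F → F ⊆ Metric.closedBall 0 R →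
      ENNReal.ofReal κ ≤ volume F → ∃ Y : U, ∃ t : ℝ, t0 ≤ t ∧ ∀ b, Y + t • w b ∈ F := by
  classical
  set B : ℝ := ∑ b, ‖w b‖ with hB
  have hB0 : 0 ≤ B := Finset.sum_nonneg fun _ _ => norm_nonneg _
  let Qp : Set U := Metric.closedBall 0 (R + B)
  have hQpfin : volume Qp < ⊤ := measure_closedBall_lt_top
  have hQpm : MeasurableSet Qp := Metric.isClosed_closedBall.measurableSet
  set v : ℝ := (volume Qp).toReal with hv
  have hv0 : 0 ≤ v := ENNReal.toReal_nonneg
  set δ : ℝ := κ / (2 * (v + 1)) with hδ
  have hδ0 : 0 < δ := by positivity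
  obtain ⟨N, hN⟩ := density_hales_jewett α δ hδ0
  refine ⟨1 / (N + 1), by positivity, ?_⟩
  intro F hF hFQ hFκ
  let X := Fin (N + 1) → α
  let sh : X → U := fun x => (1 / ((N : ℝ) + 1)) • ∑ n, w (x n)
  have hsh : ∀ x, ‖sh x‖ ≤ B := by
    intro x
    simp only [sh]
    rw [norm_smul, Real.norm_of_nonneg (by positivity)]
    have h1 : ‖∑ n, w (x n)‖ ≤ (N + 1) * B := by
      calc ‖∑ n, w (x n)‖ ≤ ∑ n : Fin (N + 1), ‖w (x n)‖ := norm_sum_le _ _
        _ ≤ ∑ n : Fin (N + 1), B := by
            refine Finset.sum_le_sum fun n _ => ?_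
            exact Finset.single_le_sum (f := fun b => ‖w b‖) (fun _ _ => norm_nonneg _)
              (Finset.mem_univ (x n))
        _ = (N + 1) * B := by simp
    calc 1 / ((N : ℝ) + 1) * ‖∑ n, w (x n)‖ ≤ 1 / ((N : ℝ) + 1) * ((N + 1) * B) := by gcongr
      _ = B := by field_simp
  have hex : ∃ Y : U, δ ≤ dens {x : X | Y + sh x ∈ F} := by
    by_contra hcon
    push Not at hcon
    have hcard : (0 : ℝ) < Fintype.card X := by exact_mod_cast Fintype.card_pos
    have hpt : ∀ Y : U, ∑ x : X, F.indicator (fun _ => (1 : ENNReal)) (Y + sh x) ≤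
        Qp.indicator (fun _ => ENNReal.ofReal (δ * Fintype.card X)) Y := by
      intro Y
      by_cases hY : Y ∈ Qp
      · rw [indicator_of_mem hY]
        have h1 := (hcon Y).le
        unfold dens at h1
        rw [Pool.Agent.Helper868.DHJ.av_eq_sum, div_le_iff₀ hcard] at h1
        refine le_trans (le_of_eq ?_) (ENNReal.ofReal_le_ofReal h1)
        rw [ENNReal.ofReal_sum_of_nonneg (fun x _ => Pool.Agent.Helper868.DHJ.ind_nonneg _ _)]
        refine Finset.sum_congr rfl fun x _ => ?_
        by_cases hx : Y + sh x ∈ F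
        · rw [indicator_of_mem hx, Pool.Agent.Helper868.DHJ.ind_mem (by exact hx)]; simp
        · rw [indicator_of_notMem hx, Pool.Agent.Helper868.DHJ.ind_not_mem (by exact hx)]; simp
      · rw [indicator_of_notMem hY]
        apply le_of_eq
        refine Finset.sum_eq_zero fun x _ => ?_
        rw [indicator_of_notMem]
        intro hx
        apply hY
        have h2 := hFQ hx
        simp only [Qp, Metric.mem_closedBall, dist_zero_right] at h2 ⊢
        calc ‖Y‖ = ‖(Y + sh x) - sh x‖ := by rw [add_sub_cancel_right]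
          _ ≤ ‖Y + sh x‖ + ‖sh x‖ := norm_sub_le _ _
          _ ≤ R + B := add_le_add h2 (hsh x)
    have h3 := lintegral_mono (μ := volume) hpt
    rw [lintegral_indicator hQpm, setLIntegral_const, lintegral_finsetSum'] at h3
    · have h4 : ∀ x : X, ∫⁻ Y, F.indicator (fun _ => (1 : ENNReal)) (Y + sh x) = volume F := by
        intro x
        rw [lintegral_add_right_eq_self (fun Y => F.indicator (fun _ => (1 : ENNReal)) Y) (sh x),
          lintegral_indicator hF, setLIntegral_const, one_mul]
      simp_rw [h4] at h3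
      rw [Finset.sum_const, Finset.card_univ, nsmul_eq_mul] at h3
      have h5 : volume Qp = ENNReal.ofReal v := (ENNReal.ofReal_toReal hQpfin.ne).symm
      rw [h5, ← ENNReal.ofReal_mul (by positivity)] at h3
      have h6 : (Fintype.card X : ENNReal) * ENNReal.ofReal κ ≤
          ENNReal.ofReal (δ * Fintype.card X * v) := le_trans (by gcongr) h3
      rw [← ENNReal.ofReal_natCast, ← ENNReal.ofReal_mul (by positivity),
        ENNReal.ofReal_le_ofReal_iff (by positivity)] at h6
      have h7 : κ ≤ δ * v := by
        have : (Fintype.card X : ℝ) * κ ≤ (Fintype.card X : ℝ) * (δ * v) := by linarith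
        exact le_of_mul_le_mul_left this hcard
      have h8 : δ * v ≤ κ / 2 := by
        rw [hδ, div_mul_eq_mul_div, div_le_div_iff₀ (by positivity) (by positivity)]
        nlinarith
      linarith
    · intro x _
      have : Measurable fun Y : U => F.indicator (fun _ => (1 : ENNReal)) (Y + sh x) :=
        (measurable_const.indicator hF).comp (measurable_add_const _)
      exact this.aemeasurable
  obtain ⟨Y, hY⟩ := hex
  have hnot : ¬ LineFree {x : X | Y + sh x ∈ F} := by
    intro hlf
    have := hN (Fin (N + 1)) (by simp) _ hlf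
    linarith
  unfold LineFree at hnot
  push Not at hnot
  obtain ⟨u, ⟨i0, hi0⟩, hu⟩ := hnot
  let I : Finset (Fin (N + 1)) := Finset.univ.filter fun i => u i = none
  let t : ℝ := (1 / ((N : ℝ) + 1)) * I.card
  refine ⟨Y + (1 / ((N : ℝ) + 1)) • ∑ i ∈ Finset.univ.filter (fun i => ¬ u i = none),
    w ((u i).getD (Classical.arbitrary α)), t, ?_, ?_⟩
  · have : (1 : ℝ) ≤ I.card := by
      have : 0 < I.card := Finset.card_pos.2 ⟨i0, by simp [I, hi0]⟩
      exact_mod_cast this
    simp only [t]
    calc 1 / ((N : ℝ) + 1) = 1 / ((N : ℝ) + 1) * 1 := by ring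
      _ ≤ _ := by gcongr
  · intro b
    have h1 : Y + sh (pt u b) ∈ F := hu b
    have h2 : sh (pt u b) = (1 / ((N : ℝ) + 1)) • ∑ i ∈ Finset.univ.filter (fun i => ¬ u i = none),
        w ((u i).getD (Classical.arbitrary α)) + t • w b := by
      simp only [sh, t]
      rw [← Finset.sum_filter_add_sum_filter_not Finset.univ (fun i => u i = none), smul_add, add_comm]
      congr 1
      · congr 1
        refine Finset.sum_congr rfl fun i hi => ?_
        simp only [Finset.mem_filter, Finset.mem_univ, true_and] at hi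
        cases h : u i with
        | none => exact absurd h hi
        | some a => simp [pt, h]
      · rw [mul_smul]
        congr 1
        rw [Finset.sum_congr rfl (g := fun _ => w b)]
        · rw [Finset.sum_const]
          simp only [I]
          rw [Nat.cast_smul_eq_nsmul]
        · intro i hi
          simp only [Finset.mem_filter, Finset.mem_univ, true_and] at hi
          simp [pt, hi]
    rw [h2, ← add_assoc] at h1
    exact h1

end Pool.Agent.H894R3.Szem
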