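import Mathlib
import Pool.Agent.H894R3.Szem
import Pool.Agent.H894R3.SmallBall

namespace Pool.Agent.H894R3.Tee

open MeasureTheory Set Matrix
open scoped ENNReal

/-- the weights -/
noncomputable def wt (n k : ℕ) (i : Fin (n + 1)) (j : Fin (k + 1)) : ℝ :=
  (∑ l : Fin (k + 1), ((i : ℝ) + 1) ^ (l : ℕ))⁻¹ * ((i : ℝ) + 1) ^ (j : ℕ)

theorem wt_sum_pos (n k : ℕ) (i : Fin (n + 1)) :
    0 < ∑ l : Fin (k + 1), ((i : ℝ) + 1) ^ (l : ℕ) :=
  Finset.sum_pos (fun _ _ => by positivity) ⟨0, Finset.mem_univ _⟩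

theorem wt_nonneg (n k : ℕ) (i : Fin (n + 1)) (j : Fin (k + 1)) : 0 ≤ wt n k i j := by
  have := wt_sum_pos n k i
  unfold wt; positivity

theorem wt_sum (n k : ℕ) (i : Fin (n + 1)) : ∑ j, wt n k i j = 1 := by
  unfold wt
  rw [← Finset.mul_sum]
  exact inv_mul_cancel₀ (wt_sum_pos n k i).ne'

/-- the minors -/
noncomputable def mi (n k : ℕ) (f : Fin (k + 1) → Fin (n + 1)) : Matrix (Fin (k + 1)) (Fin (k + 1)) ℝ :=
  Matrix.of fun a b => wt n k (f a) b

theorem mi_det (n k : ℕ) (f : Fin (k + 1) → Fin (n + 1)) (hf : Function.Injective f) :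
    IsUnit (mi n k f).det := by
  rw [isUnit_iff_ne_zero]
  have h1 : mi n k f = Matrix.of fun a b => (∑ l : Fin (k + 1), ((f a : ℝ) + 1) ^ (l : ℕ))⁻¹ *
      (Matrix.vandermonde fun a => ((f a : ℝ) + 1)) a b := by
    ext a b
    simp [mi, wt, Matrix.vandermonde_apply]
  rw [h1, Matrix.det_mul_column]
  refine mul_ne_zero ?_ ?_
  · rw [Finset.prod_ne_zero_iff]
    intro a _
    exact inv_ne_zero (wt_sum_pos n k (f a)).ne'
  · rw [Matrix.det_vandermonde_ne_zero_iff]
    intro a b hab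
    apply hf
    simp only [add_left_inj, Nat.cast_inj] at hab
    exact Fin.ext hab

/-- solving the system -/
theorem solve (n k : ℕ) (f : Fin (k + 1) → Fin (n + 1)) (hf : Function.Injective f)
    {V : Type*} [AddCommGroup V] [Module ℝ V] (z : Fin (k + 1) → V) (a : Fin (k + 1)) :
    ∑ j, wt n k (f a) j • (∑ b, (mi n k f)⁻¹ j b • z b) = z a := by
  have h := Matrix.mul_nonsing_inv (mi n k f) (mi_det n k f hf)
  calc ∑ j, wt n k (f a) j • (∑ b, (mi n k f)⁻¹ j b • z b)
      = ∑ b, (∑ j, wt n k (f a) j * (mi n k f)⁻¹ j b) • z b := by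
        simp_rw [Finset.smul_sum, Finset.sum_smul, smul_smul]
        rw [Finset.sum_comm]
    _ = ∑ b, ((mi n k f) * (mi n k f)⁻¹) a b • z b := by
        refine Finset.sum_congr rfl fun b _ => ?_
        rw [Matrix.mul_apply]
        rfl
    _ = z a := by
        rw [h]
        simp [Matrix.one_apply]

theorem coef (n k : ℕ) (f : Fin (k + 1) → Fin (n + 1)) (hf : Function.Injective f)
    (p : Fin (n + 1)) : ∃ C : Fin k → ℝ, ∀ l, wt n k p l - wt n k (f 0) l =
      ∑ j, C j * (wt n k (f j.succ) l - wt n k (f 0) l) := by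
  let a : Fin (k + 1) → ℝ := Matrix.vecMul (wt n k p) (mi n k f)⁻¹
  have h1 : Matrix.vecMul a (mi n k f) = wt n k p := by
    simp only [a]
    rw [Matrix.vecMul_vecMul, Matrix.nonsing_inv_mul _ (mi_det n k f hf), Matrix.vecMul_one]
  have h2 : ∀ l, ∑ b, a b * wt n k (f b) l = wt n k p l := by
    intro l
    have := congrFun h1 l
    rw [← this]
    simp [Matrix.vecMul, dotProduct, mi]
  have h3 : ∑ b, a b = 1 := by
    have : ∑ l, ∑ b, a b * wt n k (f b) l = ∑ l, wt n k p l := Finset.sum_congr rfl fun l _ => h2 l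
    rw [Finset.sum_comm, wt_sum] at this
    simp_rw [← Finset.mul_sum, wt_sum, mul_one] at this
    exact this
  refine ⟨fun j => a j.succ, fun l => ?_⟩
  have h4 : ∑ b, a b * (wt n k (f b) l - wt n k (f 0) l) = wt n k p l - wt n k (f 0) l := by
    simp_rw [mul_sub]
    rw [Finset.sum_sub_distrib, h2, ← Finset.sum_mul, h3, one_mul]
  rw [← h4, Fin.sum_univ_succ]
  simp

/-- the base points -/
def f0 (k m : ℕ) (a : Fin (k + 1)) : Fin (k + m + 1) := ⟨a, by omega⟩

theorem f0_inj (k m : ℕ) : Function.Injective (f0 k m) := by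
  intro a b h
  simp only [f0, Fin.mk.injEq] at h
  exact Fin.ext h

theorem f0_zero (k m : ℕ) : f0 k m 0 = 0 := rfl

theorem f0_succ (k m : ℕ) (j : Fin k) : f0 k m j.succ = (finSumFinEquiv (Sum.inl j : Fin k ⊕ Fin m)).succ := by
  apply Fin.ext
  simp [f0]

/-- the directions -/
noncomputable def zz (k m : ℕ) : Fin (k + m + 1) → (Fin (k + m) → ℝ) :=
  Fin.cons 0 fun i => Sum.elim (fun _ => 0) (fun j => Pi.single (finSumFinEquiv (Sum.inr j)) 1)
    (finSumFinEquiv.symm i)

theorem zz_f0 (k m : ℕ) (a : Fin (k + 1)) : zz k m (f0 k m a) = 0 := by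
  refine Fin.cases ?_ (fun j => ?_) a
  · rw [f0_zero]; rfl
  · rw [f0_succ]; simp [zz]

theorem zz_inr (k m : ℕ) (j : Fin m) :
    zz k m (finSumFinEquiv (Sum.inr j : Fin k ⊕ Fin m)).succ =
      Pi.single (finSumFinEquiv (Sum.inr j)) 1 := by
  simp [zz]

/-- the upper left block -/
noncomputable def P1 (k m : ℕ) (Y : Fin (k + 1) → (Fin (k + m) → ℝ)) : Matrix (Fin k) (Fin k) ℝ :=
  Matrix.of fun i j => ∑ l, (wt (k + m) k (f0 k m i.succ) l - wt (k + m) k (f0 k m 0) l) *
    Y l (finSumFinEquiv (Sum.inl j))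

theorem P1_cont (k m : ℕ) : Continuous fun Y => (P1 k m Y).det := by
  refine Continuous.matrix_det ?_
  refine continuous_pi fun i => continuous_pi fun j => ?_
  simp only [P1, Matrix.of_apply]
  fun_prop

theorem P1_null (k m : ℕ) : volume {Y : Fin (k + 1) → (Fin (k + m) → ℝ) | (P1 k m Y).det = 0} = 0 := by
  let tgt : Fin (k + 1) → (Fin (k + m) → ℝ) := Fin.cons 0 fun j => Pi.single (finSumFinEquiv (Sum.inl j)) 1
  let Ud : Fin (k + 1) → (Fin (k + m) → ℝ) := fun l => ∑ b, (mi (k + m) k (f0 k m))⁻¹ l b • tgt b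
  have hU : ∀ a, ∑ l, wt (k + m) k (f0 k m a) l • Ud l = tgt a := fun a =>
    solve (k + m) k (f0 k m) (f0_inj k m) tgt a
  have hP : ∀ (Y : Fin (k + 1) → (Fin (k + m) → ℝ)) (s : ℝ), P1 k m (Y + s • Ud) = P1 k m Y + s • 1 := by
    intro Y s
    ext i j
    simp only [P1, Matrix.of_apply, Matrix.add_apply, Matrix.smul_apply, smul_eq_mul, Pi.add_apply,
      Pi.smul_apply]
    simp_rw [mul_add]
    rw [Finset.sum_add_distrib]
    congr 1
    have h1 := congrFun (hU i.succ) (finSumFinEquiv (Sum.inl j))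
    have h2 := congrFun (hU 0) (finSumFinEquiv (Sum.inl j))
    simp only [Finset.sum_apply, Pi.smul_apply, smul_eq_mul] at h1 h2
    have h3 : ∀ l, (wt (k + m) k (f0 k m i.succ) l - wt (k + m) k (f0 k m 0) l) *
        (s * Ud l (finSumFinEquiv (Sum.inl j))) =
        s * (wt (k + m) k (f0 k m i.succ) l * Ud l (finSumFinEquiv (Sum.inl j)) -
          wt (k + m) k (f0 k m 0) l * Ud l (finSumFinEquiv (Sum.inl j))) := fun l => by ring
    simp_rw [h3]
    rw [← Finset.mul_sum, Finset.sum_sub_distrib, h1, h2]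
    congr 1
    simp only [tgt, Fin.cons_succ, Fin.cons_zero, Pi.zero_apply, sub_zero, Matrix.one_apply]
    by_cases hij : i = j
    · subst hij; simp
    · have : (finSumFinEquiv (Sum.inl j : Fin k ⊕ Fin m)) ≠ finSumFinEquiv (Sum.inl i) := by
        intro h
        exact hij (Sum.inl.inj (finSumFinEquiv.injective h)).symm
      rw [Pi.single_eq_of_ne this, if_neg hij]
  let L : ℝ →ₗ[ℝ] (Fin (k + 1) → (Fin (k + m) → ℝ)) := LinearMap.toSpanSingleton ℝ _ Ud
  have hmeas : MeasurableSet {Y : Fin (k + 1) → (Fin (k + m) → ℝ) | (P1 k m Y).det ≠ 0} :=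
    ((P1_cont k m).measurable (measurableSet_singleton (0 : ℝ))).compl
  have h := ae_mem_of_ae_add_linearMap_mem L volume volume hmeas (by
    intro Y
    filter_upwards [SmallBall.ae_det_add_ne (P1 k m Y)] with s hs
    show (P1 k m (Y + L s)).det ≠ 0
    have : L s = s • Ud := rfl
    rw [this, hP]
    exact hs)
  rw [ae_iff] at h
  simpa using h


/-- the small determinants have small measure -/
theorem exists_small (k m : ℕ) (R κ : ℝ) (hκ : 0 < κ) : ∃ η : ℝ, 0 < η ∧
    volume {Y : Fin (k + 1) → (Fin (k + m) → ℝ) | Y ∈ Metric.closedBall 0 R ∧ |(P1 k m Y).det| < η} ≤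
      ENNReal.ofReal κ := by
  let A : ℕ → Set (Fin (k + 1) → (Fin (k + m) → ℝ)) := fun n =>
    {Y | Y ∈ Metric.closedBall 0 R ∧ |(P1 k m Y).det| < 1 / ((n : ℝ) + 1)}
  have hA : ∀ n, MeasurableSet (A n) := fun n =>
    (Metric.isClosed_closedBall.measurableSet).inter
      (isOpen_lt (P1_cont k m).abs continuous_const).measurableSet
  have hanti : Antitone A := by
    intro n n' hnn Y hY
    refine ⟨hY.1, hY.2.trans_le ?_⟩
    gcongr
  have hfin : ∃ n, volume (A n) ≠ ⊤ := by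
    refine ⟨0, ?_⟩
    refine ((measure_mono (fun Y hY => hY.1)).trans_lt
      (measure_closedBall_lt_top (x := (0 : Fin (k + 1) → (Fin (k + m) → ℝ))) (r := R))).ne
  have hlim := tendsto_measure_iInter_atTop (μ := volume) (fun n => (hA n).nullMeasurableSet)
    hanti hfin
  have hzero : volume (⋂ n, A n) = 0 := by
    refine measure_mono_null ?_ (P1_null k m)
    intro Y hY
    simp only [mem_iInter] at hY
    by_contra hne
    have hpos : 0 < |(P1 k m Y).det| := abs_pos.2 hne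
    obtain ⟨n, hn⟩ := exists_nat_one_div_lt hpos
    exact lt_irrefl _ (hn.trans (hY n).2)
  rw [hzero] at hlim
  have h1 := hlim.eventually (gt_mem_nhds (ENNReal.ofReal_pos.2 hκ))
  obtain ⟨n, hn⟩ := h1.exists
  exact ⟨1 / ((n : ℝ) + 1), by positivity, hn.le⟩

/-- the index sets -/
abbrev Al (k m : ℕ) : Type := {s : Finset (Fin (k + m + 1)) // s.card = k + 1}

/-- the enumeration of an index set -/
noncomputable def en (k m : ℕ) (s : Al k m) : Fin (k + 1) → Fin (k + m + 1) :=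
  s.1.orderEmbOfFin s.2

theorem en_inj (k m : ℕ) (s : Al k m) : Function.Injective (en k m s) :=
  (s.1.orderEmbOfFin s.2).injective

/-- the direction vectors -/
noncomputable def ww (k m : ℕ) (s : Al k m) : Fin (k + 1) → (Fin (k + m) → ℝ) :=
  fun j => ∑ b, (mi (k + m) k (en k m s))⁻¹ j b • zz k m (en k m s b)

theorem ww_solve (k m : ℕ) (s : Al k m) (i : Fin (k + m + 1)) (hi : i ∈ s.1) :
    ∑ j, wt (k + m) k i j • ww k m s j = zz k m i := by
  have : i ∈ Set.range (s.1.orderEmbOfFin s.2) := by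
    rw [Finset.range_orderEmbOfFin]; exact hi
  obtain ⟨a, rfl⟩ := this
  exact solve (k + m) k (en k m s) (en_inj k m s) (fun b => zz k m (en k m s b)) a

/-- the base index set -/
def s0 (k m : ℕ) : Al k m :=
  ⟨Finset.univ.map ⟨f0 k m, f0_inj k m⟩, by simp⟩

theorem ww_s0 (k m : ℕ) : ww k m (s0 k m) = 0 := by
  funext j
  unfold ww
  refine Finset.sum_eq_zero fun b _ => ?_
  have h1 : en k m (s0 k m) b ∈ (s0 k m).1 := Finset.orderEmbOfFin_mem _ _ _
  simp only [s0, Finset.mem_map, Finset.mem_univ, true_and, Function.Embedding.coeFn_mk] at h1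
  obtain ⟨a, ha⟩ := h1
  rw [show en k m (s0 k m) b = f0 k m a from ha.symm, zz_f0, smul_zero]

/-- the points of the skeleton -/
noncomputable def XX (k m : ℕ) (Y : Fin (k + 1) → (Fin (k + m) → ℝ)) (t : ℝ) (i : Fin (k + m + 1)) :
    Fin (k + m) → ℝ := ∑ j, wt (k + m) k i j • Y j + t • zz k m i

theorem XX_hull (k m : ℕ) (Y : Fin (k + 1) → (Fin (k + m) → ℝ)) (t : ℝ) (s : Al k m)
    (i : Fin (k + m + 1)) (hi : i ∈ s.1) :
    XX k m Y t i ∈ convexHull ℝ (range (Y + t • ww k m s)) := by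
  have h1 : XX k m Y t i = ∑ j, wt (k + m) k i j • (Y + t • ww k m s) j := by
    unfold XX
    simp only [Pi.add_apply, Pi.smul_apply, smul_add]
    rw [Finset.sum_add_distrib, ← ww_solve k m s i hi, Finset.smul_sum]
    congr 1
    refine Finset.sum_congr rfl fun j _ => ?_
    rw [smul_comm]
  rw [h1]
  exact (convex_convexHull ℝ _).sum_mem (fun j _ => wt_nonneg _ _ _ _) (wt_sum _ _ _)
    (fun j _ => subset_convexHull ℝ _ (mem_range_self j))

theorem XX_det (k m : ℕ) (Y : Fin (k + 1) → (Fin (k + m) → ℝ)) (t : ℝ) :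
    (Matrix.of fun i : Fin (k + m) => XX k m Y t i.succ - XX k m Y t 0).det =
      (P1 k m Y).det * t ^ m := by
  classical
  choose C hC using fun i : Fin m => coef (k + m) k (f0 k m) (f0_inj k m)
    (finSumFinEquiv (Sum.inr i : Fin k ⊕ Fin m)).succ
  let P2 : Matrix (Fin k) (Fin m) ℝ := Matrix.of fun i j =>
    ∑ l, (wt (k + m) k (f0 k m i.succ) l - wt (k + m) k (f0 k m 0) l) *
      Y l (finSumFinEquiv (Sum.inr j))
  let CM : Matrix (Fin m) (Fin k) ℝ := Matrix.of C
  let e : Fin k ⊕ Fin m ≃ Fin (k + m) := finSumFinEquiv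
  rw [← Matrix.det_submatrix_equiv_self e]
  have hz0 : zz k m 0 = 0 := rfl
  have hdiff : ∀ (p : Fin (k + m + 1)) (q : Fin (k + m)),
      (XX k m Y t p - XX k m Y t 0) q = ∑ l, (wt (k + m) k p l - wt (k + m) k (f0 k m 0) l) * Y l q +
        t * zz k m p q := by
    intro p q
    simp only [XX, Pi.sub_apply, Pi.add_apply, Finset.sum_apply, Pi.smul_apply, smul_eq_mul, hz0,
      Pi.zero_apply, mul_zero, add_zero, f0_zero]
    simp_rw [sub_mul]
    rw [Finset.sum_sub_distrib]
    ring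
  have hcomb : ∀ (i : Fin m) (q : Fin (k + m)),
      ∑ l, (wt (k + m) k (e (Sum.inr i)).succ l - wt (k + m) k (f0 k m 0) l) * Y l q =
      ∑ j, C i j * ∑ l, (wt (k + m) k (f0 k m j.succ) l - wt (k + m) k (f0 k m 0) l) * Y l q := by
    intro i q
    simp_rw [Finset.mul_sum]
    rw [Finset.sum_comm]
    refine Finset.sum_congr rfl fun l _ => ?_
    rw [hC i l, Finset.sum_mul]
    refine Finset.sum_congr rfl fun j _ => ?_
    ring
  have hmat : (Matrix.of fun i : Fin (k + m) => XX k m Y t i.succ - XX k m Y t 0).submatrix e e =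
      Matrix.fromBlocks 1 0 CM 1 * Matrix.fromBlocks (P1 k m Y) P2 0 (t • (1 : Matrix (Fin m) (Fin m) ℝ)) := by
    rw [Matrix.fromBlocks_multiply]
    ext i j
    rcases i with i | i <;> rcases j with j | j
    · simp only [Matrix.submatrix_apply, Matrix.of_apply, Matrix.fromBlocks_apply₁₁, hdiff,
        Matrix.one_mul, Matrix.zero_mul, add_zero]
      rw [show (e (Sum.inl i)).succ = f0 k m i.succ from (f0_succ k m i).symm, zz_f0]
      simp [P1, e]
    · simp only [Matrix.submatrix_apply, Matrix.of_apply, Matrix.fromBlocks_apply₁₂, hdiff,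
        Matrix.one_mul, Matrix.zero_mul, add_zero]
      rw [show (e (Sum.inl i)).succ = f0 k m i.succ from (f0_succ k m i).symm, zz_f0]
      simp [P2, e]
    · simp only [Matrix.submatrix_apply, Matrix.of_apply, Matrix.fromBlocks_apply₂₁, hdiff, hcomb,
        Matrix.mul_zero, add_zero, Matrix.mul_apply]
      have h1 : zz k m (e (Sum.inr i)).succ (e (Sum.inl j)) = 0 := by
        rw [show zz k m (e (Sum.inr i)).succ = Pi.single (e (Sum.inr i)) 1 from zz_inr k m i]
        rw [Pi.single_eq_of_ne]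
        intro h
        exact absurd (e.injective h) (by simp)
      rw [h1, mul_zero, add_zero]
      simp [CM, P1, e]
    · simp only [Matrix.submatrix_apply, Matrix.of_apply, Matrix.fromBlocks_apply₂₂, hdiff, hcomb,
        Matrix.one_mul, Matrix.add_apply, Matrix.mul_apply, Matrix.smul_apply, smul_eq_mul]
      have h1 : zz k m (e (Sum.inr i)).succ (e (Sum.inr j)) = (1 : Matrix (Fin m) (Fin m) ℝ) i j := by
        rw [show zz k m (e (Sum.inr i)).succ = Pi.single (e (Sum.inr i)) 1 from zz_inr k m i]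
        by_cases hij : i = j
        · subst hij; simp
        · rw [Pi.single_eq_of_ne, Matrix.one_apply_ne hij]
          intro h
          exact hij (Sum.inr.inj (e.injective h)).symm
      rw [h1]
      simp [CM, P2, e]
  rw [hmat, Matrix.det_mul, Matrix.det_fromBlocks_zero₁₂, Matrix.det_fromBlocks_zero₂₁]
  simp

theorem tee (k m : ℕ) (R κ : ℝ) (hκ : 0 < κ) : ∃ δ : ℝ, 0 < δ ∧
    ∀ E : Set (Fin (k + 1) → (Fin (k + m) → ℝ)), MeasurableSet E →
      E ⊆ Metric.closedBall 0 R → ENNReal.ofReal κ ≤ volume E →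
      ∃ X : Fin (k + m + 1) → (Fin (k + m) → ℝ),
        δ ≤ |(Matrix.of fun i : Fin (k + m) => X i.succ - X 0).det| ∧
        ∀ s : Finset (Fin (k + m + 1)), s.card = k + 1 →
          ∃ y ∈ E, ∀ i ∈ s, X i ∈ convexHull ℝ (range y) := by
  obtain ⟨η, hη, hηv⟩ := exists_small k m R (κ / 2) (by positivity)
  have : Nonempty (Al k m) := ⟨s0 k m⟩
  obtain ⟨t0, ht0, hsz⟩ := Szem.szem (Al k m) (ww k m) R (κ / 2) (by positivity)
  refine ⟨η * t0 ^ m, by positivity, ?_⟩
  intro E hE hER hEκ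
  let F : Set (Fin (k + 1) → (Fin (k + m) → ℝ)) := {Y | Y ∈ E ∧ η ≤ |(P1 k m Y).det|}
  have hF : MeasurableSet F :=
    hE.inter (isClosed_le continuous_const (P1_cont k m).abs).measurableSet
  have hFv : ENNReal.ofReal (κ / 2) ≤ volume F := by
    have h1 : E ⊆ F ∪ {Y : Fin (k + 1) → (Fin (k + m) → ℝ) |
        Y ∈ Metric.closedBall 0 R ∧ |(P1 k m Y).det| < η} := by
      intro Y hY
      by_cases h : η ≤ |(P1 k m Y).det|
      · exact Or.inl ⟨hY, h⟩
      · exact Or.inr ⟨hER hY, not_le.1 h⟩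
    have h2 : ENNReal.ofReal κ ≤ volume F + ENNReal.ofReal (κ / 2) :=
      hEκ.trans ((measure_mono h1).trans ((measure_union_le _ _).trans (by gcongr)))
    have h3 : ENNReal.ofReal κ = ENNReal.ofReal (κ / 2) + ENNReal.ofReal (κ / 2) := by
      rw [← ENNReal.ofReal_add (by positivity) (by positivity)]; congr 1; ring
    rw [h3] at h2
    exact (ENNReal.add_le_add_iff_right ENNReal.ofReal_ne_top).1 h2
  obtain ⟨Y, t, ht, hY⟩ := hsz F hF (fun Y hY => hER hY.1) hFv
  refine ⟨XX k m Y t, ?_, ?_⟩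
  · have h1 := hY (s0 k m)
    rw [ww_s0, smul_zero, add_zero] at h1
    rw [XX_det, abs_mul, abs_pow]
    have h2 : t0 ≤ |t| := ht.trans (le_abs_self t)
    gcongr
    exact h1.2
  · intro s hs
    exact ⟨Y + t • ww k m ⟨s, hs⟩, (hY ⟨s, hs⟩).1, fun i hi => XX_hull k m Y t ⟨s, hs⟩ i hi⟩

end Pool.Agent.H894R3.Tee
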