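import Mathlib
import Pool.Agent.H894R3.Pre
import Pool.Agent.H894R3.Tee
import Pool.Agent.H894R3.Ana

namespace Pool.Agent.H894R3.Core

open MeasureTheory Set
open scoped ENNReal Pointwise

theorem pre' (d k : ℕ) (hd : 0 < d) (ε : ℝ) (hε : 0 < ε) : ∃ η R κ : ℝ, 0 < η ∧ 0 < κ ∧
    ∀ S : Set (Fin d → ℝ), MeasurableSet S → volume S ≤ 1 →
      ∀ E : Set (Fin (k + 2) → (Fin d → ℝ)), MeasurableSet E →
      (∀ x ∈ E, convexHull ℝ (range x) ⊆ S) → ENNReal.ofReal ε ≤ volume E →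
      ∃ (T : (Fin d → ℝ) →ₗ[ℝ] (Fin d → ℝ)) (a : Fin d → ℝ), η ≤ |LinearMap.det T| ∧
        ENNReal.ofReal κ ≤ volume ({ν : Fin (k + 2) → (Fin d → ℝ) | (fun i => T (ν i + a)) ∈ E} ∩
          Metric.closedBall 0 R) := by
  obtain ⟨n, rfl⟩ : ∃ n, d = n + 1 := ⟨d - 1, by omega⟩
  exact Pre.pre n k ε hε

theorem core (k m : ℕ) (ε : ℝ) (hε : 0 < ε) : ∃ δ : ℝ, 0 < δ ∧
    ∀ S : Set (Fin (k + 1 + m) → ℝ), MeasurableSet S → volume S ≤ 1 →
      ∀ E : Set (Fin (k + 2) → (Fin (k + 1 + m) → ℝ)), MeasurableSet E →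
      (∀ x ∈ E, convexHull ℝ (range x) ⊆ S) → ENNReal.ofReal ε ≤ volume E →
      ∃ X : Fin (k + 1 + m + 1) → (Fin (k + 1 + m) → ℝ),
        δ ≤ |(Matrix.of fun i : Fin (k + 1 + m) => X i.succ - X 0).det| ∧
        ∀ s : Finset (Fin (k + 1 + m + 1)), s.card = k + 2 →
          convexHull ℝ (X '' (s : Set (Fin (k + 1 + m + 1)))) ⊆ S := by
  obtain ⟨η, R, κ, hη, hκ, hpre⟩ := pre' (k + 1 + m) k (by omega) ε hε
  obtain ⟨δ, hδ, htee⟩ := Tee.tee (k + 1) m R κ hκ
  refine ⟨δ * η, by positivity, ?_⟩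
  intro S hS hS1 E hE hhull hEε
  obtain ⟨T, a, hT, hv⟩ := hpre S hS hS1 E hE hhull hEε
  have hTcont : Continuous T := T.continuous_of_finiteDimensional
  have hm : MeasurableSet ({ν : Fin (k + 2) → (Fin (k + 1 + m) → ℝ) | (fun i => T (ν i + a)) ∈ E} ∩
          Metric.closedBall 0 R) := by
    refine MeasurableSet.inter ?_ Metric.isClosed_closedBall.measurableSet
    have : Continuous fun ν : Fin (k + 2) → (Fin (k + 1 + m) → ℝ) => (fun i => T (ν i + a)) := by
      fun_prop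
    exact this.measurable hE
  obtain ⟨X, hX1, hX2⟩ := htee _ hm inter_subset_right hv
  refine ⟨fun i => T (X i + a), ?_, ?_⟩
  · have h1 : (Matrix.of fun i : Fin (k + 1 + m) => T (X i.succ + a) - T (X 0 + a)) =
        (Matrix.of fun i : Fin (k + 1 + m) => X i.succ - X 0) * (LinearMap.toMatrix' T).transpose := by
      ext i j
      have h2 : T (X i.succ + a) - T (X 0 + a) = T (X i.succ - X 0) := by
        rw [← map_sub]; congr 1; abel
      have h3 : T (X i.succ - X 0) = (LinearMap.toMatrix' T).mulVec (X i.succ - X 0) := by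
        rw [← Matrix.toLin'_apply, Matrix.toLin'_toMatrix']
      rw [Matrix.of_apply, h2, h3]
      simp only [Matrix.mulVec, dotProduct, Matrix.mul_apply, Matrix.of_apply, Matrix.transpose_apply]
      refine Finset.sum_congr rfl fun l _ => ?_
      ring
    rw [h1, Matrix.det_mul, abs_mul, Matrix.det_transpose, LinearMap.det_toMatrix']
    exact mul_le_mul hX1 hT hη.le (abs_nonneg _)
  · intro s hs
    obtain ⟨y, hy, hys⟩ := hX2 s hs
    have h1 : convexHull ℝ (range fun i => T (y i + a)) ⊆ S := hhull _ hy.1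
    refine subset_trans (convexHull_min ?_ (convex_convexHull ℝ _)) h1
    rintro _ ⟨i, hi, rfl⟩
    have h2 := hys i hi
    let Af : (Fin (k + 1 + m) → ℝ) →ᵃ[ℝ] (Fin (k + 1 + m) → ℝ) :=
      T.toAffineMap.comp (AffineMap.id ℝ _ + AffineMap.const ℝ _ a)
    have h3 : (range fun i => T (y i + a)) = Af '' (range y) := by
      rw [← range_comp]; rfl
    rw [h3, ← AffineMap.image_convexHull]
    exact ⟨X i, h2, rfl⟩

end Pool.Agent.H894R3.Core
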