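import Mathlib

namespace Pool.Agent.H894R3.Simp

open MeasureTheory Set
open scoped ENNReal Pointwise

/-- the standard simplex vertices -/
def ev (d : ℕ) : Fin (d + 1) → (Fin d → ℝ) := Fin.cons 0 fun i => Pi.single i 1

/-- its volume -/
noncomputable def vs (d : ℕ) : ℝ := (volume (convexHull ℝ (range (ev d)))).toReal

theorem vs_fin (d : ℕ) : volume (convexHull ℝ (range (ev d))) < ⊤ :=
  ((finite_range (ev d)).isCompact_convexHull (𝕜 := ℝ)).measure_lt_top

theorem vs_pos (d : ℕ) : 0 < vs d := by
  have h1 : Icc (0 : Fin d → ℝ) (fun _ => 1 / ((d : ℝ) + 1)) ⊆ convexHull ℝ (range (ev d)) := by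
    intro x hx
    have hx0 : ∀ i, 0 ≤ x i := fun i => hx.1 i
    have hx1 : ∀ i, x i ≤ 1 / ((d : ℝ) + 1) := fun i => hx.2 i
    have hsum : ∑ i, x i ≤ 1 := by
      calc ∑ i, x i ≤ ∑ _i : Fin d, 1 / ((d : ℝ) + 1) := Finset.sum_le_sum fun i _ => hx1 i
        _ = d / ((d : ℝ) + 1) := by simp; ring
        _ ≤ 1 := by rw [div_le_one (by positivity)]; linarith
    let w : Fin (d + 1) → ℝ := Fin.cons (1 - ∑ i, x i) x
    have hw : x = ∑ i, w i • ev d i := by
      rw [Fin.sum_univ_succ]
      simp only [w, ev, Fin.cons_zero, smul_zero, zero_add, Fin.cons_succ]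
      funext j
      rw [Finset.sum_apply]
      simp only [Pi.smul_apply, smul_eq_mul, Pi.single_apply, mul_ite, mul_one, mul_zero]
      rw [Finset.sum_ite_eq]
      simp
    rw [hw]
    refine (convex_convexHull ℝ _).sum_mem ?_ ?_ (fun i _ => subset_convexHull ℝ _ (mem_range_self i))
    · intro i _
      refine Fin.cases ?_ (fun i => ?_) i
      · simp only [w, Fin.cons_zero]; linarith
      · simp only [w, Fin.cons_succ]; exact hx0 i
    · rw [Fin.sum_univ_succ]
      simp only [w, Fin.cons_zero, Fin.cons_succ]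
      ring
  have h2 : 0 < volume (Icc (0 : Fin d → ℝ) (fun _ => 1 / ((d : ℝ) + 1))) := by
    rw [Real.volume_Icc_pi, pos_iff_ne_zero, Finset.prod_ne_zero_iff]
    intro i _
    simp only [Pi.zero_apply, sub_zero]
    exact (ENNReal.ofReal_pos.2 (by positivity)).ne'
  exact ENNReal.toReal_pos (h2.trans_le (measure_mono h1)).ne' (vs_fin d).ne

theorem vol_simplex (d : ℕ) (X : Fin (d + 1) → (Fin d → ℝ)) :
    volume (convexHull ℝ (range X)) =
      ENNReal.ofReal |(Matrix.of fun i : Fin d => X i.succ - X 0).det| * ENNReal.ofReal (vs d) := by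
  let M : Matrix (Fin d) (Fin d) ℝ := Matrix.of fun i : Fin d => X i.succ - X 0
  let L : (Fin d → ℝ) →ₗ[ℝ] (Fin d → ℝ) := Matrix.toLin' M.transpose
  have hLdet : LinearMap.det L = M.det := by
    simp only [L]
    rw [LinearMap.det_toLin', Matrix.det_transpose]
  have hLe : ∀ i : Fin d, L (Pi.single i 1) = X i.succ - X 0 := by
    intro i
    simp only [L, Matrix.toLin'_apply]
    rw [Matrix.mulVec_single_one]
    rfl
  let Y : Fin (d + 1) → (Fin d → ℝ) := fun i => X i - X 0
  have hY : range Y = L '' range (ev d) := by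
    rw [← range_comp]
    congr 1
    funext i
    refine Fin.cases ?_ (fun i => ?_) i
    · simp [Y, ev]
    · simp only [Y, ev, Function.comp, Fin.cons_succ]
      rw [hLe]
  have hX : range X = (fun y => y + X 0) '' range Y := by
    rw [← range_comp]
    congr 1
    funext i
    simp [Y]
  have hhX : convexHull ℝ (range X) = (fun y => y + X 0) '' convexHull ℝ (range Y) := by
    rw [hX]
    have := (AffineMap.id ℝ (Fin d → ℝ) + AffineMap.const ℝ (Fin d → ℝ) (X 0)).image_convexHull (range Y)
    exact this.symm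
  rw [hhX, image_add_right, measure_preimage_add_right, hY, ← LinearMap.image_convexHull,
    Measure.addHaar_image_linearMap, hLdet]
  congr 1
  rw [vs, ENNReal.ofReal_toReal (vs_fin d).ne]

theorem aff_indep (d : ℕ) (X : Fin (d + 1) → (Fin d → ℝ))
    (h : (Matrix.of fun i : Fin d => X i.succ - X 0).det ≠ 0) : AffineIndependent ℝ X := by
  rw [affineIndependent_iff_linearIndependent_vsub ℝ X 0]
  have h1 := Matrix.linearIndependent_rows_of_det_ne_zero h
  have h2 : LinearIndependent ℝ fun i : Fin d => X i.succ - X 0 := h1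
  have h3 : ((fun i : {x : Fin (d + 1) // x ≠ 0} => X i -ᵥ X 0) ∘
      (finSuccAboveEquiv (0 : Fin (d + 1)))) = fun i : Fin d => X i.succ - X 0 := by
    funext i
    simp only [Function.comp, vsub_eq_sub]
    congr 1
  exact (linearIndependent_equiv' (finSuccAboveEquiv (0 : Fin (d + 1))) h3).1 h2

end Pool.Agent.H894R3.Simp
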