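import Mathlib
import Pool.Agent.H894R3.Core
import Pool.Agent.H894R3.Simp

namespace Pool.Agent.H894R3.Fin

open MeasureTheory Set
open scoped ENNReal Pointwise

theorem final (k d : ℕ) (hd0 : d ≠ 0) (ε δ : ℝ) (hε : 0 < ε) (hδ : 0 < δ)
    (hcore : ∀ S : Set (Fin (d) → ℝ), MeasurableSet S → volume S ≤ 1 →
      ∀ E : Set (Fin (k + 2) → (Fin (d) → ℝ)), MeasurableSet E →
      (∀ x ∈ E, convexHull ℝ (range x) ⊆ S) → ENNReal.ofReal ε ≤ volume E →
      ∃ X : Fin (d + 1) → (Fin (d) → ℝ),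
        δ ≤ |(Matrix.of fun i : Fin (d) => X i.succ - X 0).det| ∧
        ∀ s : Finset (Fin (d + 1)), s.card = k + 2 →
          convexHull ℝ (X '' (s : Set (Fin (d + 1)))) ⊆ S)
    (S : Set (EuclideanSpace ℝ (Fin (d)))) (hS : MeasurableSet S) (hS0 : 0 < volume S)
    (hSfin : volume S < ⊤)
    (hEε : ε ≤ (volume {x : Fin (k + 1 + 1) → EuclideanSpace ℝ (Fin (d)) |
                (∀ i, x i ∈ S) ∧ convexHull ℝ (Set.range x) ⊆ S}).toReal
              / (volume S).toReal ^ (k + 1 + 1)) :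
    ∃ X : Fin (d + 1) → EuclideanSpace ℝ (Fin (d)),
          AffineIndependent ℝ X ∧
          δ * Simp.vs (d) * (volume S).toReal ≤ (volume (convexHull ℝ (Set.range X))).toReal ∧
          ∀ s : Finset (Fin (d + 1)), s.card = k + 1 + 1 →
            convexHull ℝ (X '' (s : Set (Fin (d + 1)))) ⊆ S := by
  set V0 : ℝ := (volume S).toReal with hV0
  have hV0pos : 0 < V0 := ENNReal.toReal_pos hS0.ne' hSfin.ne
  have hvolS : volume S = ENNReal.ofReal V0 := (ENNReal.ofReal_toReal hSfin.ne).symm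
  set lam : ℝ := (V0⁻¹) ^ ((d : ℝ)⁻¹) with hlam
  have hlampos : 0 < lam := Real.rpow_pos_of_pos (inv_pos.2 hV0pos) _
  have hlamd : lam ^ d = V0⁻¹ := Real.rpow_inv_natCast_pow (inv_pos.2 hV0pos).le hd0
  have mp1 := PiLp.volume_preserving_toLp (Fin d)
  have mp2 := PiLp.volume_preserving_ofLp (Fin d)
  let S0 : Set (Fin d → ℝ) := (WithLp.toLp 2 : (Fin d → ℝ) → EuclideanSpace ℝ (Fin d)) ⁻¹' S
  have hS0m : MeasurableSet S0 := mp1.measurable hS
  have hS0v : volume S0 = ENNReal.ofReal V0 := by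
    rw [← hvolS]; exact mp1.measure_preimage hS.nullMeasurableSet
  let S1 : Set (Fin d → ℝ) := lam • S0
  have hS1m : MeasurableSet S1 := hS0m.const_smul₀ _
  have hS1v : volume S1 = 1 := by
    simp only [S1]
    rw [Measure.addHaar_smul, Module.finrank_fin_fun, hlamd, hS0v, abs_of_pos (inv_pos.2 hV0pos),
      ← ENNReal.ofReal_mul (inv_pos.2 hV0pos).le, inv_mul_cancel₀ hV0pos.ne', ENNReal.ofReal_one]
  let E0 : Set (Fin (k + 2) → EuclideanSpace ℝ (Fin d)) := {x | (∀ i, x i ∈ S) ∧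
    convexHull ℝ (Set.range x) ⊆ S}
  let E00 : Set (Fin (k + 2) → (Fin d → ℝ)) := Ana.ConvSet (k + 2) S0
  have hE00 : volume E0 ≤ volume E00 := by
    have mpi : MeasurePreserving (fun (x : Fin (k + 2) → EuclideanSpace ℝ (Fin d)) i =>
        (WithLp.ofLp (x i) : Fin d → ℝ)) := volume_preserving_pi fun _ => mp2
    refine (measure_mono ?_).trans (mpi.measure_preimage_le E00)
    rintro x ⟨h1, h2⟩
    refine ⟨fun i => h1 i, ?_⟩
    intro y hy
    apply h2
    have h3 : (range fun i => (WithLp.ofLp (x i) : Fin d → ℝ)) =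
        (WithLp.linearEquiv 2 ℝ (Fin d → ℝ)).toLinearMap '' range x := by
      rw [← range_comp]; rfl
    rw [h3, ← LinearMap.image_convexHull] at hy
    obtain ⟨z, hz, rfl⟩ := hy
    exact hz
  have hsub : lam • E00 ⊆ Ana.ConvSet (k + 2) S1 := by
    rintro _ ⟨x, ⟨h1, h2⟩, rfl⟩
    refine ⟨fun i => smul_mem_smul_set (h1 i), ?_⟩
    have h3 : range (lam • x) = lam • range x := by
      rw [← image_smul, ← range_comp]; rfl
    rw [show (fun x => lam • x) x = lam • x from rfl, h3, convexHull_smul]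
    exact smul_set_mono h2
  have hE1 : ENNReal.ofReal ε ≤ volume (Ana.ConvSet (k + 2) S1) := by
    have h1 : volume (lam • E00) = ENNReal.ofReal ((V0⁻¹) ^ (k + 2)) * volume E00 := by
      rw [Measure.addHaar_smul]
      congr 2
      have : Module.finrank ℝ (Fin (k + 2) → (Fin d → ℝ)) = d * (k + 2) := by
        rw [Module.finrank_pi_fintype]
        simp [mul_comm]
      rw [this, pow_mul, hlamd, abs_of_pos (by positivity)]
    calc ENNReal.ofReal ε ≤ ENNReal.ofReal ((volume E0).toReal / V0 ^ (k + 2)) :=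
          ENNReal.ofReal_le_ofReal hEε
      _ = ENNReal.ofReal ((V0⁻¹) ^ (k + 2)) * ENNReal.ofReal (volume E0).toReal := by
          rw [← ENNReal.ofReal_mul (by positivity)]
          congr 1
          rw [inv_pow]; field_simp
      _ ≤ ENNReal.ofReal ((V0⁻¹) ^ (k + 2)) * volume E00 := by
          gcongr
          exact ENNReal.ofReal_toReal_le.trans hE00
      _ = volume (lam • E00) := h1.symm
      _ ≤ _ := measure_mono hsub
  obtain ⟨E', hE'sub, hE'm, hE'v⟩ := Ana.exists_measurable (k + 2) S1 hS1m (by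
    rw [hS1v]; exact ENNReal.one_lt_top)
  obtain ⟨X, hX1, hX2⟩ := hcore S1 hS1m hS1v.le E' hE'm (fun x hx => (hE'sub hx).2)
    (by rw [hE'v]; exact hE1)
  let Lf : (Fin d → ℝ) →ₗ[ℝ] EuclideanSpace ℝ (Fin d) :=
    (WithLp.linearEquiv 2 ℝ (Fin d → ℝ)).symm.toLinearMap.comp (lam⁻¹ • LinearMap.id)
  have hLf : ∀ y, Lf y = WithLp.toLp 2 (lam⁻¹ • y) := fun y => rfl
  have hLinj : Function.Injective Lf := by
    intro y y' h
    rw [hLf, hLf] at h
    have h1 : lam⁻¹ • y = lam⁻¹ • y' := congrArg WithLp.ofLp h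
    exact smul_right_injective _ (inv_ne_zero hlampos.ne') h1
  have hdet0 : (Matrix.of fun i : Fin d => X i.succ - X 0).det ≠ 0 := by
    intro h
    rw [h, abs_zero] at hX1
    linarith
  refine ⟨fun i => Lf (X i), ?_, ?_, ?_⟩
  · exact (Simp.aff_indep d X hdet0).map' Lf.toAffineMap hLinj
  · have hr : range (fun i => Lf (X i)) = Lf '' range X := by
      rw [← range_comp]; rfl
    have h1 : (WithLp.toLp 2 : (Fin d → ℝ) → EuclideanSpace ℝ (Fin d)) ⁻¹'
        (convexHull ℝ (range fun i => Lf (X i))) = lam⁻¹ • convexHull ℝ (range X) := by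
      rw [hr, ← LinearMap.image_convexHull]
      ext y
      constructor
      · rintro ⟨z, hz, hzy⟩
        rw [hLf] at hzy
        have h2 : lam⁻¹ • z = y := congrArg WithLp.ofLp hzy
        rw [← h2]
        exact smul_mem_smul_set hz
      · rintro ⟨z, hz, rfl⟩
        exact ⟨z, hz, rfl⟩
    have h2 : volume (lam⁻¹ • convexHull ℝ (range X)) ≤
        volume (convexHull ℝ (range fun i => Lf (X i))) := by
      rw [← h1]
      exact mp1.measure_preimage_le _
    have hfin : volume (convexHull ℝ (range fun i => Lf (X i))) ≠ ⊤ :=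
      (((finite_range (fun i => Lf (X i))).isCompact_convexHull (𝕜 := ℝ)).measure_lt_top).ne
    have h3 : ENNReal.ofReal (δ * Simp.vs d * V0) ≤
        volume (convexHull ℝ (range fun i => Lf (X i))) := by
      refine le_trans ?_ h2
      rw [Measure.addHaar_smul, Module.finrank_fin_fun, inv_pow, hlamd, inv_inv,
        Simp.vol_simplex, abs_of_pos hV0pos, ← ENNReal.ofReal_mul (abs_nonneg _),
        ← ENNReal.ofReal_mul hV0pos.le]
      apply ENNReal.ofReal_le_ofReal
      have hvs := Simp.vs_pos d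
      have : δ * Simp.vs d ≤ |(Matrix.of fun i : Fin d => X i.succ - X 0).det| * Simp.vs d := by
        gcongr
      nlinarith
    have h4 := ENNReal.toReal_mono hfin h3
    have hvs := Simp.vs_pos d
    rwa [ENNReal.toReal_ofReal (by positivity)] at h4
  · intro s hs
    have h1 := hX2 s hs
    have h2 : (fun i => Lf (X i)) '' (s : Set (Fin (d + 1))) = Lf '' (X '' (s : Set (Fin (d + 1)))) := by
      rw [image_image]
    rw [h2, ← LinearMap.image_convexHull]
    rintro _ ⟨y, hy, rfl⟩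
    obtain ⟨y0, hy0, hy1⟩ := h1 hy
    have h3 : Lf y = WithLp.toLp 2 y0 := by
      rw [hLf, ← hy1]
      simp only [smul_smul, inv_mul_cancel₀ hlampos.ne', one_smul]
    rw [h3]
    exact hy0

end Pool.Agent.H894R3.Fin
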